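import Pool.Agent.Work.MP_f4b644_ag.ArithA

/-!
The generic rank formula from spanning at the expected rank, and the numerical side conditions.
-/

set_option autoImplicit false

namespace Pool.Agent.Work.MP_f4b644_ag

theorem dense_iff_of_span {I J K : ℕ} (hI : 1 ≤ I) (hJ : 1 ≤ J) (hK : 1 ≤ K)
    (h : ∀ s : ℕ, I * J * K + 2 * s ≤ s * (I + J + K) →
      s * (I + J + K) + 2 < I * J * K + 2 * s + (I + J + K) → Dense (RankSet I J K s)) (r : ℕ) :
    Dense (RankSet I J K r) ↔ ⌈((I : ℝ) * J * K) / ((I : ℝ) + J + K - 2)⌉₊ ≤ r := by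
  have hI' : (1 : ℝ) ≤ I := by exact_mod_cast hI
  have hJ' : (1 : ℝ) ≤ J := by exact_mod_cast hJ
  have hK' : (1 : ℝ) ≤ K := by exact_mod_cast hK
  have hσ : (0 : ℝ) < (I : ℝ) + J + K - 2 := by linarith
  have key : ∀ n : ℕ, ⌈((I : ℝ) * J * K) / ((I : ℝ) + J + K - 2)⌉₊ ≤ n ↔
      I * J * K + 2 * n ≤ n * (I + J + K) := by
    intro n
    rw [Nat.ceil_le, div_le_iff₀ hσ, ← Nat.cast_le (α := ℝ)]
    push_cast
    constructor <;> intro h <;> linarith
  constructor
  · intro hd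
    rw [key]
    by_contra hc
    obtain ⟨I, rfl⟩ : ∃ n, I = n + 1 := ⟨I - 1, by omega⟩
    obtain ⟨J, rfl⟩ : ∃ n, J = n + 1 := ⟨J - 1, by omega⟩
    refine not_dense_of_lt ?_ hd
    have : r * (I + 1 + (J + 1) + K) = r * (I + J + K) + 2 * r := by ring
    omega
  · intro hr
    set s := ⌈((I : ℝ) * J * K) / ((I : ℝ) + J + K - 2)⌉₊ with hs
    have h1 := (key s).1 le_rfl
    have hs0 : 0 < s := by
      rcases Nat.eq_zero_or_pos s with h0 | h0
      · rw [h0] at h1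
        have : 0 < I * J * K := by positivity
        omega
      · exact h0
    have h2 : ¬ (I * J * K + 2 * (s - 1) ≤ (s - 1) * (I + J + K)) := by
      rw [← key]; omega
    have h3 : (s - 1) * (I + J + K) + (I + J + K) = s * (I + J + K) := by
      obtain ⟨n, hn⟩ : ∃ n, s = n + 1 := ⟨s - 1, by omega⟩
      rw [hn, Nat.add_sub_cancel]
      ring
    refine (h s h1 (by omega)).mono ?_
    rintro T ⟨a, b, c, rfl⟩
    obtain ⟨d, rfl⟩ := Nat.exists_eq_add_of_le hr
    refine ⟨Fin.append a 0, Fin.append b 0, Fin.append c 0, ?_⟩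
    funext i j k
    simp [Fin.sum_univ_add]

theorem denseA {I J K : ℕ} (hI : 1 ≤ I) (hIJ : I ≤ J) (hJK : J ≤ K)
    (h : 16 * (I + J) * (I + J + K) ^ 2 ≤ (I * J) ^ 2) (s : ℕ)
    (h1 : I * J * K + 2 * s ≤ s * (I + J + K))
    (h2 : s * (I + J + K) + 2 < I * J * K + 2 * s + (I + J + K)) : Dense (RankSet I J K s) := by
  have hJ0 : 0 < J := by omega
  have b1 : 64 * J ≤ I ^ 2 := by
    have : 16 * J * (2 * J) ^ 2 ≤ 16 * (I + J) * (I + J + K) ^ 2 := by gcongr <;> omega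
    have h3 : J ^ 2 * (64 * J) ≤ J ^ 2 * I ^ 2 := by linarith
    exact Nat.le_of_mul_le_mul_left h3 (by positivity)
  have b2 : 192 ≤ J := by
    have : 16 * (2 * I) * ((3 * I) * (2 * J)) ≤ 16 * (I + J) * ((I + J + K) * (I + J + K)) := by
      gcongr <;> omega
    have h3 : (I ^ 2 * J) * 192 ≤ (I ^ 2 * J) * J := by linarith
    exact Nat.le_of_mul_le_mul_left h3 (by positivity)
  have b3 : 16 * K ^ 2 ≤ I ^ 2 * J := by
    have : 16 * J * K ^ 2 ≤ 16 * (I + J) * (I + J + K) ^ 2 := by gcongr <;> omega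
    have h3 : J * (16 * K ^ 2) ≤ J * (I ^ 2 * J) := by linarith
    exact Nat.le_of_mul_le_mul_left h3 hJ0
  have b4 : 100 ≤ I := by
    by_contra hc
    have : I ^ 2 ≤ 99 ^ 2 := Nat.pow_le_pow_left (by omega) 2
    omega
  obtain ⟨K, rfl⟩ : ∃ n, K = n + 1 := ⟨K - 1, by omega⟩
  set K' := K + 1 with hK'
  have hK0 : 0 < K' := by omega
  obtain ⟨σ, hσ⟩ : ∃ σ, I + J + K' = σ + 2 := ⟨I + J + K' - 2, by omega⟩
  have g1 : I * J * K' ≤ s * σ := by rw [hσ] at h1; linarith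
  have g2 : s * σ < I * J * K' + σ := by rw [hσ] at h2; linarith
  set y0 := s / K' with hy0
  have g3 : y0 * K' ≤ s := Nat.div_mul_le_self s K'
  have g4 : s < (y0 + 1) * K' := by
    have := Nat.lt_mul_div_succ s hK0
    rw [mul_comm]; exact this
  have c1 : I * J < (y0 + 1) * σ := by
    have : K' * (I * J) < K' * ((y0 + 1) * σ) := by
      have : s * σ < (y0 + 1) * K' * σ := Nat.mul_lt_mul_of_pos_right g4 (by omega)
      linarith
    exact Nat.lt_of_mul_lt_mul_left this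
  have c2 : 16 * (I + J) < (y0 + 1) ^ 2 := by
    have a1 : (I * J) ^ 2 < ((y0 + 1) * (I + J + K')) ^ 2 :=
      Nat.pow_lt_pow_left (c1.trans_le (Nat.mul_le_mul_left _ (by omega))) (by omega)
    have a2 : 16 * (I + J) * (I + J + K') ^ 2 < (y0 + 1) ^ 2 * (I + J + K') ^ 2 := by
      rw [← mul_pow]; omega
    exact Nat.lt_of_mul_lt_mul_right a2
  have c3 : y0 * σ ≤ I * J + 2 := by
    have a1 : y0 * K' * σ ≤ s * σ := Nat.mul_le_mul_right _ g3
    have a2 : K' * (y0 * σ) < K' * (I * J + 3) := by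
      have : σ ≤ 3 * K' := by omega
      linarith
    have := Nat.lt_of_mul_lt_mul_left a2
    omega
  have c4 : y0 * (I + 2 * J) ≤ I * J + 2 + 2 * y0 := by
    have : y0 * (I + 2 * J) ≤ y0 * (σ + 2) := Nat.mul_le_mul_left _ (by omega)
    linarith
  have N1 : 2 * y0 + 2 ≤ I := by
    by_contra hc
    obtain ⟨i, rfl⟩ : ∃ n, I = n + 1 := ⟨I - 1, by omega⟩
    obtain ⟨j, rfl⟩ : ∃ n, J = n + 1 := ⟨J - 1, by omega⟩
    have a1 : i ≤ 2 * y0 := by omega
    have a2 : i * (i + 1 + 2 * j) ≤ 2 * y0 * (i + 1 + 2 * j) := Nat.mul_le_mul_right _ a1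
    linarith
  have c5 : 3 * y0 ≤ J + 1 := by
    by_contra hc
    obtain ⟨j, rfl⟩ : ∃ n, J = n + 1 := ⟨J - 1, by omega⟩
    have a1 : j + 3 ≤ 3 * y0 := by omega
    have a2 : (j + 3) * (I + 2 * j) ≤ 3 * y0 * (I + 2 * j) := Nat.mul_le_mul_right _ a1
    have a3 : I * j ≤ (j + 1) * j := Nat.mul_le_mul_right _ hIJ
    linarith
  obtain ⟨P, a, b, c, hP, hT⟩ := spanA (I := I) (J := J) (K := K') (s := s) (by omega) (by omega)
    h1 N1 (by
      intro κ hκ
      rw [← hy0] at hκ ⊢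
      by_contra hc
      have a0 : 50 ≤ y0 := by
        by_contra hc'
        have : (y0 + 1) ^ 2 ≤ 50 ^ 2 := Nat.pow_le_pow_left (by omega) 2
        omega
      obtain ⟨κ, rfl⟩ : ∃ n, κ = n + 1 := ⟨κ - 1, by omega⟩
      obtain ⟨z, hz⟩ : ∃ n, y0 = n + 3 := ⟨y0 - 3, by omega⟩
      rw [hz] at hκ hc c2 a0
      simp only [Nat.add_sub_cancel] at hκ
      have a1 : z ≤ 3 * κ := by omega
      have a2 : (z + 3) * z ≤ (3 * κ + 3) * (3 * κ) := Nat.mul_le_mul (by omega) a1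
      linarith) (by
      intro y hy
      rw [← hy0] at hy ⊢
      set q := K' / (I - y) with hq
      have a1 : q * (I - y) ≤ K' := Nat.div_mul_le_self _ _
      have a2 : q * I ≤ 2 * K' := by
        have : q * I ≤ q * (2 * (I - y)) := Nat.mul_le_mul_left _ (by omega)
        linarith
      have a3 : 4 * q ^ 2 ≤ J := by
        have : (q * I) ^ 2 ≤ (2 * K') ^ 2 := Nat.pow_le_pow_left a2 2
        have h3 : I ^ 2 * (4 * q ^ 2) ≤ I ^ 2 * J := by linarith
        exact Nat.le_of_mul_le_mul_left h3 (by positivity)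
      have a4 : 36 * q + 115 ≤ 2 * J := by
        by_cases hq7 : q ≤ 6
        · omega
        · have a5 : 7 ≤ q := by omega
          have a6 : 7 * q ≤ q * q := Nat.mul_le_mul_right _ a5
          linarith
      omega)
  exact dense_of_TS P hP.le a b c hT

end Pool.Agent.Work.MP_f4b644_ag
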