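import Pool.Agent.Work.MP_f4b644_ag.CoverA

/-!
Choice of the group sizes and transfers.
-/

set_option autoImplicit false

namespace Pool.Agent.Work.MP_f4b644_ag

open Finset Classical

theorem exists_kd (R : ℕ) : ∃ κ d : ℕ, 2 * R = κ * (κ - 1) + 2 * d ∧ d < κ := by
  induction R with
  | zero => exact ⟨1, 0, by simp, by simp⟩
  | succ R ih =>
    obtain ⟨κ, d, h, hd⟩ := ih
    by_cases h1 : d + 1 < κ
    · exact ⟨κ, d + 1, by omega, h1⟩
    · refine ⟨κ + 1, 0, ?_, by omega⟩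
      obtain rfl : κ = d + 1 := by omega
      simp only [Nat.add_sub_cancel] at h ⊢
      nlinarith

theorem sum_zmod_val {K : ℕ} [NeZero K] (g : ℕ → ℕ) :
    ∑ k : ZMod K, g k.val = ∑ n ∈ range K, g n := by
  refine sum_bij (fun k _ => k.val) (fun k _ => mem_range.2 (ZMod.val_lt k))
    (fun a _ b _ h => ZMod.val_injective K h) (fun n hn => ⟨(n : ZMod K), mem_univ _, ?_⟩)
    (fun _ _ => rfl)
  exact ZMod.val_cast_of_lt (mem_range.1 hn)

theorem div_step (K s n : ℕ) (hK : 0 < K) :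
    n * s / K + s / K ≤ (n + 1) * s / K ∧ (n + 1) * s / K ≤ n * s / K + s / K + 1 := by
  rw [add_mul, one_mul, Nat.add_div hK]
  split_ifs <;> omega

/-- spanning from numerical side conditions -/
theorem spanA {I J K s : ℕ} [NeZero K] (hK : 7 ≤ K) (hI2 : 2 ≤ I)
    (hs : I * J * K + 2 * s ≤ s * (I + J + K))
    (N1 : 2 * (s / K) + 2 ≤ I)
    (N2 : ∀ κ, κ * (κ - 1) + 3 ≤ I + J + 2 * (s / K) → 3 * κ + 1 ≤ s / K)
    (N3 : ∀ y, y ≤ s / K + 1 → 2 * (s / K) + s / K / 3 + 4 * (K / (I - y)) + 12 ≤ J) :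
    ∃ (P : Finset (ZMod K × ℕ)) (a : ZMod K × ℕ → Fin I → ℂ) (b : ZMod K × ℕ → Fin J → ℂ)
      (c : ZMod K × ℕ → ZMod K → ℂ), P.card = s ∧ TS (P : Set (ZMod K × ℕ)) a b c = ⊤ := by
  have hK0 : 0 < K := by omega
  set y0 := s / K with hy0
  have hy03 : 4 ≤ y0 := N2 1 (by have := N3 0 (by omega); omega)
  let A : ℕ := s * (I + J + K) - (I * J * K + 2 * s)
  have hA : (A : ℤ) = s * (I + J + K) - (I * J * K + 2 * s) := by
    simp only [A]
    rw [Nat.cast_sub hs]
    push_cast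
    ring
  let yn : ℕ → ℕ := fun n => (n + 1) * s / K - n * s / K
  have hyn : ∀ n, y0 ≤ yn n ∧ yn n ≤ y0 + 1 := by
    intro n
    have := div_step K s n hK0
    simp only [yn]
    omega
  have hyn' : ∀ n, (yn n : ℤ) = ((n + 1) * s / K : ℕ) - (n * s / K : ℕ) := by
    intro n
    have := div_step K s n hK0
    simp only [yn]
    omega
  let Ψ : ℕ → ℤ := fun n => ((I : ℤ) + J - 2) * (n * s / K : ℕ) - n * ((I : ℤ) * J - s) -
    (n * A / K : ℕ)
  have hΨK : Ψ K = Ψ 0 := by
    simp only [Ψ, Nat.mul_div_cancel_left _ hK0, hA]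
    simp
    ring
  have hΨ : ∀ n, Ψ n ≤ 0 ∧ -((I : ℤ) + J - 3) ≤ Ψ n := by
    intro n
    have a1 : ((n * s / K : ℕ) : ℤ) * K + (n * s % K : ℕ) = n * s := by
      exact_mod_cast Nat.div_add_mod' (n * s) K
    have a2 : ((n * A / K : ℕ) : ℤ) * K + (n * A % K : ℕ) = n * A := by
      exact_mod_cast Nat.div_add_mod' (n * A) K
    have a3 : ((n * s % K : ℕ) : ℤ) < K := by exact_mod_cast Nat.mod_lt _ hK0
    have a4 : ((n * A % K : ℕ) : ℤ) < K := by exact_mod_cast Nat.mod_lt _ hK0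
    have a5 : (0 : ℤ) ≤ (n * s % K : ℕ) := by positivity
    have a6 : (0 : ℤ) ≤ (n * A % K : ℕ) := by positivity
    have e : Ψ n * K = (n * A % K : ℕ) - ((I : ℤ) + J - 2) * (n * s % K : ℕ) := by
      simp only [Ψ]
      rw [hA] at a2
      linear_combination ((I : ℤ) + J - 2) * a1 - a2
    have hm : (1 : ℤ) ≤ (I : ℤ) + J - 2 := by
      have := N3 0 (by omega)
      omega
    have hKz : (0 : ℤ) < K := by exact_mod_cast hK0
    constructor
    · by_contra hc
      have b1 : (1 : ℤ) * K ≤ Ψ n * K := mul_le_mul_of_nonneg_right (by omega) hKz.le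
      have b2 : (0 : ℤ) ≤ ((I : ℤ) + J - 2) * (n * s % K : ℕ) := mul_nonneg (by omega) a5
      linarith
    · by_contra hc
      have b1 : Ψ n * K ≤ -((I : ℤ) + J - 2) * K := mul_le_mul_of_nonneg_right (by omega) hKz.le
      have b2 : ((I : ℤ) + J - 2) * (n * s % K : ℕ) < ((I : ℤ) + J - 2) * K :=
        mul_lt_mul_of_pos_left a3 (by omega)
      linarith
  have hΨs : ∀ n, Ψ (n + 1) - Ψ n ≤ ((I : ℤ) + J - 2) * yn n - ((I : ℤ) * J - s) := by
    intro n
    have : n * A / K ≤ (n + 1) * A / K := Nat.div_le_div_right (by nlinarith)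
    have : ((n * A / K : ℕ) : ℤ) ≤ ((n + 1) * A / K : ℕ) := by exact_mod_cast this
    simp only [Ψ, hyn']
    push_cast at this ⊢
    linarith
  have hΨv : ∀ k : ZMod K, Ψ (k + 1).val = Ψ (k.val + 1) := by
    intro k
    have : Fact (1 < K) := ⟨by omega⟩
    rw [ZMod.val_add, ZMod.val_one]
    by_cases h : k.val + 1 < K
    · rw [Nat.mod_eq_of_lt h]
    · have : k.val + 1 = K := by have := ZMod.val_lt k; omega
      rw [this, Nat.mod_self, hΨK]
  let y : ZMod K → ℕ := fun k => yn k.val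
  have hX : ∀ k : ZMod K, ∃ X : ℕ, (X : ℤ) = (y0 + 1) * y0 - Ψ k.val - y k * (y k - 1) ∧
      X + 3 ≤ I + J + 2 * y0 := by
    intro k
    obtain ⟨h1, h2⟩ := hΨ k.val
    obtain ⟨h3, h4⟩ := hyn k.val
    rcases Nat.eq_or_lt_of_le h3 with h | h
    · have h : y k = y0 := h.symm
      refine ⟨(2 * y0 - Ψ k.val).toNat, ?_, by omega⟩
      rw [Int.toNat_of_nonneg (by omega), h]
      ring
    · have h : y k = y0 + 1 := by simp only [y]; omega
      refine ⟨(- Ψ k.val).toNat, ?_, by omega⟩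
      rw [Int.toNat_of_nonneg (by omega), h]
      push_cast
      ring
  choose X hX1 hX2 using hX
  have hcl : ∀ k : ZMod K, ∃ cl : ℕ → ℕ, (∀ i j, i < 3 → cl j = cl i → j = i) ∧
      (∑ i ∈ range (y k), cs cl (y k) i = y k + 2 * (X (k - 1) / 2)) ∧
        ∀ i < y k, cs cl (y k) i ≤ y0 / 3 + 2 := by
    intro k
    obtain ⟨κ, d, h, hd⟩ := exists_kd (X (k - 1) / 2)
    have h1 := N2 κ (by have := hX2 (k - 1); omega)
    have h2 := (hyn k.val).1
    obtain ⟨cl, c1, c2, c3⟩ := exists_cl (y k) κ d (by simp only [y]; omega)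
    exact ⟨cl, c1, by rw [c2, h], fun i hi => (c3 i hi).trans (by omega)⟩
  choose cl hcl1 hcl2 hcl3 using hcl
  have hsum : ∑ k, y k = s := by
    simp only [y]
    rw [sum_zmod_val yn]
    simp only [yn]
    rw [sum_range_tsub (f := fun n => n * s / K)
      (fun a b hab => Nat.div_le_div_right (Nat.mul_le_mul_right _ hab))]
    simp [Nat.mul_div_cancel_left _ hK0]
  have hy : ∀ k, y0 ≤ y k ∧ y k ≤ y0 + 1 := fun k => hyn k.val
  obtain ⟨a, b, c, h⟩ := designA_span (I := I) (J := J) y cl (fun k => X k % 2 = 1)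
    (fun k => by have := hy k; omega) hcl1 (fun k => by
      have t0 := hy k
      have t1 := hy (k + 1)
      have t2 := hy (k + 2)
      have t3 := N3 (y k) t0.2
      refine coverA y cl _ k hK (fun k => by have := hy k; omega) hcl1 (y0 / 3 + 2) (hcl3 _)
        (by omega) (by omega) (by omega) _ _ (hcl2 _) (hcl2 _) ?_
      have e1 : k + 1 - 1 = k := by ring
      have e2 : k + 2 - 1 = k + 1 := by ring
      rw [e1, e2, hsum]
      have v1 := hX1 k
      have v2 := hX1 (k + 1)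
      have v3 := hΨs k.val
      rw [hΨv] at v2
      have goal : (I - y k) * (J - y k) + X k + y k + y (k + 1) ≤
          y (k + 1) * y (k + 1) + X (k + 1) + s := by
        zify [show y k ≤ I by omega, show y k ≤ J by omega]
        rw [v1, v2]
        have : (yn k.val : ℤ) = y k := rfl
        rw [this] at v3
        linarith
      generalize (I - y k) * (J - y k) = w1 at goal ⊢
      generalize y (k + 1) * y (k + 1) = w2 at goal ⊢
      split_ifs <;> omega)
  exact ⟨Pts y, a, b, c, by rw [card_Pts, hsum], h⟩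

end Pool.Agent.Work.MP_f4b644_ag
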