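import Pool.Agent.Work.MP_f4b644_ag.Tensor

/-!
Slice certificates: a combinatorial cover condition in every slice gives spanning for generic
parameters.
-/

set_option autoImplicit false

namespace Pool.Agent.Work.MP_f4b644_ag

/-- Vandermonde vector with node `x` -/
def vdm (J : ℕ) (x : ℂ) : Fin J → ℂ := fun j => x ^ (j : ℕ)

theorem vdm_span {P : Type*} {J : ℕ} (node : P → ℂ) (hnode : Function.Injective node)
    (T : Finset P) (hT : J ≤ T.card) (W : Submodule ℂ (Fin J → ℂ))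
    (hW : ∀ q ∈ T, vdm J (node q) ∈ W) : W = ⊤ := by
  classical
  obtain ⟨e⟩ : Nonempty (Fin J ↪ T) := Function.Embedding.nonempty_of_card_le (by simpa using hT)
  set M : Matrix (Fin J) (Fin J) ℂ := Matrix.vandermonde (fun j => node (e j)) with hM
  have hdet : M.det ≠ 0 := by
    rw [hM, Matrix.det_vandermonde_ne_zero_iff]
    intro i j hij
    exact e.injective (Subtype.ext (hnode hij))
  have hu : IsUnit M.det := isUnit_iff_ne_zero.2 hdet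
  rw [eq_top_iff]
  intro v _
  have : v = ∑ n, (Matrix.vecMul v M⁻¹ n) • vdm J (node (e n)) := by
    have h1 : Matrix.vecMul (Matrix.vecMul v M⁻¹) M = v := by
      rw [Matrix.vecMul_vecMul, Matrix.nonsing_inv_mul _ hu, Matrix.vecMul_one]
    funext m
    conv_lhs => rw [← h1]
    simp [Matrix.vecMul, dotProduct, hM, Finset.sum_apply, vdm]
  rw [this]
  exact W.sum_mem fun n _ => W.smul_mem _ (hW _ (e n).2)

/-- decomposable matrix -/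
def tq {α β : Type*} (a : α → ℂ) (b : β → ℂ) : α × β → ℂ := fun n => a n.1 * b n.2

/-- `tq a` as a linear map -/
def tqL {α β : Type*} (a : α → ℂ) : (β → ℂ) →ₗ[ℂ] (α × β → ℂ) where
  toFun b := tq a b
  map_add' b b' := by funext n; simp [tq, mul_add]
  map_smul' c b := by funext n; simp [tq]; ring

/-- embedding of a matrix in the slice `k` -/
def slL {α β γ : Type*} (c : γ → ℂ) : (α × β → ℂ) →ₗ[ℂ] (α × β × γ → ℂ) where
  toFun M := fun n => M (n.1, n.2.1) * c n.2.2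
  map_add' b b' := by funext n; simp [add_mul]
  map_smul' c b := by funext n; simp; ring

theorem slL_tq {α β γ : Type*} (a : α → ℂ) (b : β → ℂ) (c : γ → ℂ) :
    slL c (tq a b) = tp a b c := rfl

theorem top_of_rows {α β : Type*} [Fintype α] [DecidableEq α] (W : Submodule ℂ (α × β → ℂ))
    (h : ∀ i f, tq (Pi.single i 1) f ∈ W) : W = ⊤ := by
  rw [eq_top_iff]
  intro M _
  have : M = ∑ i, tq (Pi.single i (1 : ℂ)) (fun j => M (i, j)) := by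
    funext n
    simp [tq, Finset.sum_apply, Pi.single_apply]
  rw [this]
  exact W.sum_mem fun i _ => h i _

theorem top_of_slices {α β γ : Type*} [Fintype γ] [DecidableEq γ]
    (W : Submodule ℂ (α × β × γ → ℂ))
    (h : ∀ k, W.comap (slL (Pi.single k 1)) = ⊤) : W = ⊤ := by
  rw [eq_top_iff]
  intro M _
  have : M = ∑ k, slL (Pi.single k (1 : ℂ)) (fun n => M (n.1, n.2, k)) := by
    funext n
    simp [slL, Finset.sum_apply, Pi.single_apply]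
  rw [this]
  refine W.sum_mem fun k _ => ?_
  have : (fun n : α × β => M (n.1, n.2, k)) ∈ W.comap (slL (Pi.single k 1)) := by
    rw [h k]; trivial
  exact this

/-- the cover condition in one slice -/
def Cover {P α : Type*} (J : ℕ) (Rv Rc : Set P) (E : P → P → Prop) : Prop :=
  ∃ row : P → α, ∀ i : α, (∃ v ∈ Rv, row v = i) ∨
    ∃ T : Finset P, J ≤ T.card ∧ ∀ q ∈ T, q ∈ Rc ∨ ∃ v, E v q ∧ row v = i

theorem cert {P α γ : Type*} [Fintype α] [DecidableEq α] [Fintype γ] [DecidableEq γ] {J : ℕ}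
    (node : P → ℂ) (hnode : Function.Injective node)
    (L : (P → α → ℂ) → Submodule ℂ (α × Fin J × γ → ℂ))
    (Rv Rc : γ → Set P) (E : γ → P → P → Prop)
    (hR : ∀ θ k, ∀ v ∈ Rv k, ∀ f, tp (θ v) f (Pi.single k 1) ∈ L θ)
    (hC : ∀ θ k, ∀ q ∈ Rc k, ∀ f, tp f (vdm J (node q)) (Pi.single k 1) ∈ L θ)
    (hE : ∀ θ k v q, E k v q → tp (θ v) (vdm J (node q)) (Pi.single k 1) ∈ L θ)
    (hcov : ∀ k, Cover (α := α) J (Rv k) (Rc k) (E k)) : ∃ θ, L θ = ⊤ := by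
  classical
  let G : γ → Set ((P × α → ℂ) → α × Fin J → ℂ) := fun k =>
    {w | (∃ v ∈ Rv k, ∃ f, w = fun x => tq (fun i => x (v, i)) f) ∨
      (∃ q ∈ Rc k, ∃ f, w = fun _ => tq f (vdm J (node q))) ∨
      (∃ v q, E k v q ∧ w = fun x => tq (fun i => x (v, i)) (vdm J (node q)))}
  have hG : ∀ k, ∀ w ∈ G k, IsPV w := by
    rintro k w (⟨v, -, f, rfl⟩ | ⟨q, -, f, rfl⟩ | ⟨v, q, -, rfl⟩) n
    · exact PF_mul (coord_mem_PF _) (const_mem_PF _)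
    · exact const_mem_PF _
    · exact PF_mul (coord_mem_PF _) (const_mem_PF _)
  have hgen : ∀ k, ∃ F ∈ PF (P × α), (∃ x, F x ≠ 0) ∧
      ∀ x, F x ≠ 0 → Submodule.span ℂ ((fun w => w x) '' G k) = ⊤ := by
    intro k
    obtain ⟨row, hrow⟩ := hcov k
    let x₀ : P × α → ℂ := fun n => (Pi.single (row n.1) 1 : α → ℂ) n.2
    obtain ⟨F, hF, hF0, hFx⟩ := generic_span (G k) (hG k) x₀ (by
      apply top_of_rows
      intro i f
      rcases hrow i with ⟨v, hv, rfl⟩ | ⟨T, hT, hq⟩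
      · exact Submodule.subset_span ⟨_, Or.inl ⟨v, hv, f, rfl⟩, rfl⟩
      · have := vdm_span node hnode T hT ((Submodule.span ℂ ((fun w => w x₀) '' G k)).comap
          (tqL (Pi.single i 1))) (by
            intro q hqT
            rcases hq q hqT with h | ⟨v, hv, rfl⟩
            · exact Submodule.subset_span ⟨_, Or.inr (Or.inl ⟨q, h, _, rfl⟩), rfl⟩
            · exact Submodule.subset_span ⟨_, Or.inr (Or.inr ⟨v, q, hv, rfl⟩), rfl⟩)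
        have h2 : f ∈ (Submodule.span ℂ ((fun w => w x₀) '' G k)).comap
          (tqL (Pi.single i 1)) := by rw [this]; trivial
        exact h2)
    exact ⟨F, hF, ⟨x₀, hF0⟩, hFx⟩
  choose F hF hF0 hFx using hgen
  obtain ⟨z, hz⟩ := PF_exists_forall Finset.univ F (fun k _ => hF k) (fun k _ => hF0 k)
  refine ⟨fun v i => z (v, i), top_of_slices _ fun k => ?_⟩
  rw [eq_top_iff, ← hFx k z (hz k (Finset.mem_univ _)), Submodule.span_le]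
  rintro _ ⟨w, (⟨v, hv, f, rfl⟩ | ⟨q, hq, f, rfl⟩ | ⟨v, q, hvq, rfl⟩), rfl⟩
  · exact hR (fun v i => z (v, i)) k v hv f
  · exact hC (fun v i => z (v, i)) k q hq f
  · exact hE (fun v i => z (v, i)) k v q hvq

section Limits
variable {P α β γ : Type*} (s : Set P) (a₀ a₁ : P → α → ℂ) (b : P → β → ℂ)
  (c₀ c₁ c₂ : P → γ → ℂ)

/-- the deformed configuration -/
def SD (t : ℂ) : Submodule ℂ (α × β × γ → ℂ) :=
  TS s (fun p => a₀ p + t • a₁ p) b (fun p => c₀ p + t • c₁ p + t ^ 2 • c₂ p)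

theorem isPV_tp (u₀ u₁ : α → ℂ) (v : β → ℂ) (z₀ z₁ z₂ : γ → ℂ) :
    IsPV (fun x : Unit → ℂ => tp (u₀ + x () • u₁) v (z₀ + x () • z₁ + x () ^ 2 • z₂)) := by
  intro n
  refine mem_PF.2 ⟨(MvPolynomial.C (u₀ n.1) + MvPolynomial.X () * MvPolynomial.C (u₁ n.1)) *
    MvPolynomial.C (v n.2.1) * (MvPolynomial.C (z₀ n.2.2) + MvPolynomial.X () *
      MvPolynomial.C (z₁ n.2.2) + MvPolynomial.X () ^ 2 * MvPolynomial.C (z₂ n.2.2)), fun x => ?_⟩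
  simp [tp]

theorem mem_Lim_tp {S : ℂ → Submodule ℂ (α × β × γ → ℂ)} (u₀ u₁ : α → ℂ) (v : β → ℂ)
    (z₀ z₁ z₂ : γ → ℂ)
    (h : ∀ t : ℂ, t ≠ 0 → tp (u₀ + t • u₁) v (z₀ + t • z₁ + t ^ 2 • z₂) ∈ S t) :
    tp u₀ v z₀ ∈ Lim S :=
  ⟨fun t => tp (u₀ + t • u₁) v (z₀ + t • z₁ + t ^ 2 • z₂), isPV_tp _ _ _ _ _ _, by simp, h⟩

variable {s}

theorem lim_row {p : P} (hp : p ∈ s) (f : β → ℂ) :
    tp (a₀ p) f (c₀ p) ∈ Lim (SD s a₀ a₁ b c₀ c₁ c₂) :=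
  mem_Lim_tp _ (a₁ p) _ _ (c₁ p) (c₂ p) fun _ _ => TS_mem2 hp f

theorem lim_col {p : P} (hp : p ∈ s) (f : α → ℂ) :
    tp f (b p) (c₀ p) ∈ Lim (SD s a₀ a₁ b c₀ c₁ c₂) :=
  mem_Lim_tp _ 0 _ _ (c₁ p) (c₂ p) fun _ _ => TS_mem1 hp _

theorem lim_single {p : P} (hp : p ∈ s) (f : γ → ℂ) :
    tp (a₀ p) (b p) f ∈ Lim (SD s a₀ a₁ b c₀ c₁ c₂) :=
  mem_Lim_tp _ (a₁ p) _ _ 0 0 fun _ _ => TS_mem3 hp _

theorem lim_pair1 {p q : P} (hp : p ∈ s) (hq : q ∈ s) (h0 : c₀ p = c₀ q) :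
    tp (a₀ p) (b q) (c₁ p - c₁ q) ∈ Lim (SD s a₀ a₁ b c₀ c₁ c₂) := by
  refine mem_Lim_tp _ (a₁ p) _ _ (c₂ p - c₂ q) 0 fun t ht => ?_
  have h := (SD s a₀ a₁ b c₀ c₁ c₂ t).smul_mem t⁻¹ ((SD s a₀ a₁ b c₀ c₁ c₂ t).sub_mem
    (TS_mem2 hp (b q)) (TS_mem1 hq (a₀ p + t • a₁ p)))
  refine Eq.mpr (congrArg (· ∈ SD s a₀ a₁ b c₀ c₁ c₂ t) ?_) h
  funext n
  simp only [tp, h0, Pi.smul_apply, Pi.sub_apply, Pi.add_apply, smul_eq_mul, Pi.zero_apply]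
  field_simp
  ring

theorem lim_pair2 {p q : P} (hp : p ∈ s) (hq : q ∈ s) (h0 : c₀ p = c₀ q) (h1 : c₁ p = c₁ q) :
    tp (a₀ p) (b q) (c₂ p - c₂ q) ∈ Lim (SD s a₀ a₁ b c₀ c₁ c₂) := by
  refine mem_Lim_tp _ (a₁ p) _ _ 0 0 fun t ht => ?_
  have h := (SD s a₀ a₁ b c₀ c₁ c₂ t).smul_mem (t ^ 2)⁻¹ ((SD s a₀ a₁ b c₀ c₁ c₂ t).sub_mem
    (TS_mem2 hp (b q)) (TS_mem1 hq (a₀ p + t • a₁ p)))
  refine Eq.mpr (congrArg (· ∈ SD s a₀ a₁ b c₀ c₁ c₂ t) ?_) h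
  funext n
  simp only [tp, h0, h1, Pi.smul_apply, Pi.sub_apply, Pi.add_apply, smul_eq_mul, Pi.zero_apply]
  field_simp
  ring

theorem lim_sp5 {p q q' : P} (hp : p ∈ s) (hq : q ∈ s) (hq' : q' ∈ s)
    (e0 : a₀ p = a₀ q) (e1 : a₁ p = a₀ q') (e2 : a₁ q = 0) (e3 : a₁ q' = 0)
    (h0 : c₀ q = c₀ q') :
    tp (a₀ q') (b p) (c₁ q - c₁ q') ∈ Lim (SD s a₀ a₁ b c₀ c₁ c₂) := by
  refine mem_Lim_tp _ 0 _ _ (c₂ q - c₂ q') 0 fun t ht => ?_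
  have h := (SD s a₀ a₁ b c₀ c₁ c₂ t).smul_mem t⁻¹ ((SD s a₀ a₁ b c₀ c₁ c₂ t).sub_mem
    ((SD s a₀ a₁ b c₀ c₁ c₂ t).smul_mem t⁻¹ ((SD s a₀ a₁ b c₀ c₁ c₂ t).sub_mem
      (TS_mem3 hp (c₀ q + t • c₁ q + t ^ 2 • c₂ q)) (TS_mem2 hq (b p))))
    (TS_mem2 hq' (b p)))
  refine Eq.mpr (congrArg (· ∈ SD s a₀ a₁ b c₀ c₁ c₂ t) ?_) h
  funext n
  simp only [tp, h0, e0, e1, e2, e3, Pi.smul_apply, Pi.sub_apply, Pi.add_apply, smul_eq_mul,
    Pi.zero_apply]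
  field_simp
  ring

theorem lim_sp6 {p q q' : P} (hp : p ∈ s) (hq : q ∈ s)
    (e0 : a₀ p = a₀ q) (e1 : a₁ p = a₀ q') (e2 : a₁ q = 0) :
    tp (a₀ q') (b q) (c₀ p) ∈ Lim (SD s a₀ a₁ b c₀ c₁ c₂) := by
  refine mem_Lim_tp _ 0 _ _ (c₁ p) (c₂ p) fun t ht => ?_
  have h := (SD s a₀ a₁ b c₀ c₁ c₂ t).smul_mem t⁻¹ ((SD s a₀ a₁ b c₀ c₁ c₂ t).sub_mem
      (TS_mem2 hp (b q)) (TS_mem3 hq (c₀ p + t • c₁ p + t ^ 2 • c₂ p)))
  refine Eq.mpr (congrArg (· ∈ SD s a₀ a₁ b c₀ c₁ c₂ t) ?_) h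
  funext n
  simp only [tp, e0, e1, e2, Pi.smul_apply, Pi.sub_apply, Pi.add_apply, smul_eq_mul,
    Pi.zero_apply]
  field_simp
  ring

end Limits

end Pool.Agent.Work.MP_f4b644_ag
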