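import Pool.Agent.Work.MP_f4b644_ag.DesignA

/-!
The cover condition of the design from a counting inequality.
-/

set_option autoImplicit false
set_option linter.unusedSectionVars false

namespace Pool.Agent.Work.MP_f4b644_ag

open Finset Classical

variable {K : ℕ} [NeZero K]

omit [NeZero K] in
theorem zne (hK : 7 ≤ K) (n : ℕ) (h0 : 0 < n) (h7 : n < 7) : (n : ZMod K) ≠ 0 := by
  rw [Ne, ZMod.natCast_eq_zero_iff]
  intro h
  have := Nat.le_of_dvd h0 h
  omega

/-- rows of the fixed vertices in slice `k` -/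
noncomputable def al0 (ε : ZMod K → Prop) (k : ZMod K) (n : ℕ) (v : ZMod K × ℕ) : ℕ :=
  if v.1 = k then n + v.2 else if v.2 = 1 ∧ v.1 = k - 2 ∧ ε (k - 2) then n + 2 else
    if v.1 = k + 1 ∨ v.1 = k + 2 then v.2 else if v.2 = 1 ∧ v.1 = k - 1 then 2 else v.1.val % n

/-- vertex carrying the single column of `p` in slice `k` -/
noncomputable def nu (ε : ZMod K → Prop) (k : ZMod K) (p : ZMod K × ℕ) : ZMod K × ℕ :=
  if p = (k - 2, 1) ∧ ε (k - 2) then (k - 2, 0) else rho ε p

section
variable (hK : 7 ≤ K) (ε : ZMod K → Prop) (k : ZMod K) (n : ℕ)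
include hK

theorem al0_rho_self (i : ℕ) : al0 ε k n (rho ε (k, i)) = n + i := by
  have h2 : (2 : ZMod K) ≠ 0 := by exact_mod_cast zne hK 2 (by omega) (by omega)
  unfold rho
  split_ifs with h
  · obtain ⟨rfl, h⟩ := h
    have e : k - 2 ≠ k := fun e => h2 (by linear_combination -e)
    simp [al0, e, h]
  · simp [al0]

theorem al0_rho_one (i : ℕ) : al0 ε k n (rho ε (k + 1, i)) = i := by
  have h1 : (1 : ZMod K) ≠ 0 := by exact_mod_cast zne hK 1 (by omega) (by omega)
  have h2 : (2 : ZMod K) ≠ 0 := by exact_mod_cast zne hK 2 (by omega) (by omega)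
  have h3 : (3 : ZMod K) ≠ 0 := by exact_mod_cast zne hK 3 (by omega) (by omega)
  unfold rho
  split_ifs with h
  · obtain ⟨rfl, h⟩ := h
    have e0 : k + 1 - 2 = k - 1 := by ring
    have e1 : k - 1 ≠ k := fun e => h1 (by linear_combination -e)
    have e2 : k - 1 ≠ k - 2 := fun e => h1 (by linear_combination e)
    have e3 : k - 1 ≠ k + 1 := fun e => h2 (by linear_combination -e)
    have e4 : k - 1 ≠ k + 2 := fun e => h3 (by linear_combination -e)
    simp only [al0, e0, e1, e2, e3, e4, if_false, false_and, and_false, or_self, and_self, if_true]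
  · have e1 : k + 1 ≠ k := fun e => h1 (by linear_combination e)
    have e2 : k + 1 ≠ k - 2 := fun e => h3 (by linear_combination e)
    simp only [al0, e1, e2, if_false, false_and, and_false, true_or, if_true]

theorem al0_rho_two (i : ℕ) (hi : ¬ (i = 2 ∧ ε k)) : al0 ε k n (rho ε (k + 2, i)) = i := by
  have h2 : (2 : ZMod K) ≠ 0 := by exact_mod_cast zne hK 2 (by omega) (by omega)
  have h4 : (4 : ZMod K) ≠ 0 := by exact_mod_cast zne hK 4 (by omega) (by omega)
  have e1 : k + 2 ≠ k := fun e => h2 (by linear_combination e)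
  have e2 : k + 2 ≠ k - 2 := fun e => h4 (by linear_combination e)
  unfold rho
  rw [if_neg (by simpa using hi)]
  simp only [al0, e1, e2, if_false, false_and, and_false, or_true, if_true]

theorem al0_nu_des (p : ZMod K × ℕ) (p0 : p.1 ≠ k) (p1 : p.1 ≠ k + 1) (p2 : p.1 ≠ k + 2) :
    al0 ε k n (nu ε k p) = p.1.val % n ∨ (p.2 = 2 ∧ al0 ε k n (nu ε k p) = (p.1 - 2).val % n) ∨
      ((p = (k - 1, 1) ∨ p = (k + 3, 2) ∨ p = (k + 4, 2)) ∧ al0 ε k n (nu ε k p) < 3) := by
  obtain ⟨j, i⟩ := p
  dsimp only at p0 p1 p2 ⊢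
  unfold nu
  split_ifs with h
  · obtain ⟨h, h'⟩ := h
    obtain ⟨rfl, rfl⟩ := Prod.mk.inj h
    left
    simp [al0, p0, p1, p2]
  · unfold rho
    split_ifs with h'
    · obtain ⟨rfl, h'⟩ := h'
      dsimp only at h' ⊢
      have e0 : j - 2 ≠ k := fun e => p2 (by linear_combination e)
      have e1 : j - 2 ≠ k - 2 := fun e => p0 (by linear_combination e)
      have e2 : j - 2 ≠ k - 1 := fun e => p1 (by linear_combination e)
      by_cases e3 : j - 2 = k + 1 ∨ j - 2 = k + 2
      · right; right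
        refine ⟨?_, by simp only [al0, e0, e1, e3, if_false, false_and, and_false, if_true]; omega⟩
        rcases e3 with e3 | e3
        · right; left; congr 1; linear_combination e3
        · right; right; congr 1; linear_combination e3
      · right; left
        refine ⟨rfl, ?_⟩
        simp only [al0, e0, e1, e2, e3, if_false, false_and, and_false]
    · have e1 : ¬ (i = 1 ∧ j = k - 2 ∧ ε (k - 2)) := by
        rintro ⟨rfl, rfl, h''⟩
        exact h ⟨rfl, h''⟩
      by_cases e2 : i = 1 ∧ j = k - 1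
      · right; right
        refine ⟨Or.inl (by rw [e2.1, e2.2]), ?_⟩
        simp only [al0, p0, p1, p2, e1, if_false, or_self]
        rw [if_pos e2]
        omega
      · left
        simp only [al0, p0, p1, p2, e1, e2, if_false, or_self]

theorem al0_nu_three (h : ε (k + 1)) : al0 ε k n (nu ε k (k + 3, 2)) = 1 := by
  have h1 : (1 : ZMod K) ≠ 0 := by exact_mod_cast zne hK 1 (by omega) (by omega)
  have h3 : (3 : ZMod K) ≠ 0 := by exact_mod_cast zne hK 3 (by omega) (by omega)
  have e0 : k + 3 - 2 = k + 1 := by ring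
  have e1 : k + 1 ≠ k := fun e => h1 (by linear_combination e)
  have e2 : k + 1 ≠ k - 2 := fun e => h3 (by linear_combination e)
  simp [nu, rho, al0, e0, h, e1, e2]

theorem al0_one_zero : al0 ε k n (k + 1, 0) = 0 := by
  have h1 : (1 : ZMod K) ≠ 0 := by exact_mod_cast zne hK 1 (by omega) (by omega)
  have e1 : k + 1 ≠ k := fun e => h1 (by linear_combination e)
  simp [al0, e1]

end

omit [NeZero K] in
theorem rho_snd (ε : ZMod K → Prop) (p : ZMod K × ℕ) : rho ε p = p ∨ (rho ε p).2 = 1 := by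
  unfold rho
  split_ifs <;> simp

omit [NeZero K] in
theorem nu_snd (ε : ZMod K → Prop) (k : ZMod K) (p : ZMod K × ℕ) (hp : p.2 < 3) :
    (nu ε k p).2 < 3 := by
  unfold nu
  split_ifs
  · simp
  · rcases rho_snd ε p with h | h <;> rw [h] <;> omega

theorem card_des_le (hK : 7 ≤ K) (ε : ZMod K → Prop) (k : ZMod K) (n i : ℕ)
    (Des : Finset (ZMod K × ℕ))
    (hD : ∀ p ∈ Des, p.1 ≠ k ∧ p.1 ≠ k + 1 ∧ p.1 ≠ k + 2 ∧ p.2 < 3) :
    (Des.filter (fun p => al0 ε k n (nu ε k p) = i)).card ≤ 4 * (K / n + 1) + 3 := by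
  let F : Finset (ZMod K) := univ.filter (fun j => j.val % n = i)
  have hF : F.card ≤ K / n + 1 := card_mod_le K n i
  have hsub : Des.filter (fun p => al0 ε k n (nu ε k p) = i) ⊆
      (F ×ˢ range 3) ∪ F.image (fun j => (j + 2, 2)) ∪ {(k - 1, 1), (k + 3, 2), (k + 4, 2)} := by
    intro p hp
    obtain ⟨hp, hi⟩ := mem_filter.1 hp
    obtain ⟨p0, p1, p2, p3⟩ := hD p hp
    rcases al0_nu_des hK ε k n p p0 p1 p2 with h | ⟨h, h'⟩ | ⟨h, -⟩
    · refine mem_union_left _ (mem_union_left _ ?_)
      simp only [F, mem_product, mem_filter, mem_univ, true_and, mem_range]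
      exact ⟨h ▸ hi, p3⟩
    · refine mem_union_left _ (mem_union_right _ ?_)
      refine mem_image.2 ⟨p.1 - 2, ?_, ?_⟩
      · simp only [F, mem_filter, mem_univ, true_and]
        exact h' ▸ hi
      · rw [sub_add_cancel, ← h]
    · refine mem_union_right _ ?_
      simpa only [mem_insert, mem_singleton] using h
  refine (card_le_card hsub).trans ((card_union_le _ _).trans ?_)
  have h1 := card_union_le (F ×ˢ range 3) (F.image (fun j => ((j + 2, 2) : ZMod K × ℕ)))
  have h2 : (F.image (fun j => ((j + 2, 2) : ZMod K × ℕ))).card ≤ F.card := card_image_le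
  have h3 : ({(k - 1, 1), (k + 3, 2), (k + 4, 2)} : Finset (ZMod K × ℕ)).card ≤ 3 := card_le_three
  rw [card_product, card_range] at h1
  omega

theorem coverA {I J : ℕ} (y : ZMod K → ℕ) (cl : ZMod K → ℕ → ℕ) (ε : ZMod K → Prop) (k : ZMod K)
    (hK : 7 ≤ K) (hy : ∀ k, 3 ≤ y k) (hcl : ∀ k i j, i < 3 → cl k j = cl k i → j = i)
    (κ : ℕ) (hκ : ∀ i < y (k + 2), cs (cl (k + 2)) (y (k + 2)) i ≤ κ)
    (hI1 : y k + y (k + 1) ≤ I) (hI2 : y k + y (k + 2) ≤ I)
    (hload : y k + y (k + 1) + κ + 4 * (K / (I - y k) + 1) + 4 ≤ J)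
    (R1 R2 : ℕ) (hR1 : ∑ i ∈ range (y (k + 1)), cs (cl (k + 1)) (y (k + 1)) i = y (k + 1) + R1)
    (hR2 : ∑ i ∈ range (y (k + 2)), cs (cl (k + 2)) (y (k + 2)) i = y (k + 2) + R2)
    (htot : (I - y k) * (J - y k) + R1 + (if ε k then 1 else 0) + y k + y (k + 1) ≤
      y (k + 1) * y (k + 1) + R2 + (if ε (k + 1) then 1 else 0) + ∑ j, y j) :
    Cover (α := Fin I) J (rho ε '' (Gs y k : Set _)) (Gs y k : Set _) (EA y cl ε k) := by
  have h1 : (1 : ZMod K) ≠ 0 := by exact_mod_cast zne hK 1 (by omega) (by omega)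
  have h2 : (2 : ZMod K) ≠ 0 := by exact_mod_cast zne hK 2 (by omega) (by omega)
  have h3 : (3 : ZMod K) ≠ 0 := by exact_mod_cast zne hK 3 (by omega) (by omega)
  have e10 : k + 1 ≠ k := fun e => h1 (by linear_combination e)
  have e20 : k + 2 ≠ k := fun e => h2 (by linear_combination e)
  have e21 : k + 2 ≠ k + 1 := fun e => h1 (by linear_combination e)
  have e30 : k + 3 ≠ k := fun e => h3 (by linear_combination e)
  have e31 : k + 3 ≠ k + 1 := fun e => h2 (by linear_combination e)
  have e32 : k + 3 ≠ k + 2 := fun e => h1 (by linear_combination e)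
  set n := I - y k with hn
  have hy1 := hy (k + 1)
  have hy2 := hy (k + 2)
  let Des : Finset (ZMod K × ℕ) :=
    (univ.filter (fun j => j ≠ k ∧ j ≠ k + 1 ∧ j ≠ k + 2)) ×ˢ range 3
  have hDes : ∀ p, p ∈ Des ↔ p.1 ≠ k ∧ p.1 ≠ k + 1 ∧ p.1 ≠ k + 2 ∧ p.2 < 3 := by
    intro p
    simp only [Des, mem_product, mem_filter, mem_univ, true_and, mem_range, and_assoc]
  let Sg : Finset (ZMod K × ℕ) :=
    (Pts y).filter (fun p => p.1 ≠ k ∧ p.1 ≠ k + 1 ∧ p.1 ≠ k + 2 ∧ 3 ≤ p.2)
  have hSg : ∀ p, p ∈ Sg ↔ p.2 < y p.1 ∧ p.1 ≠ k ∧ p.1 ≠ k + 1 ∧ p.1 ≠ k + 2 ∧ 3 ≤ p.2 := by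
    intro p
    simp only [Sg, mem_filter, mem_Pts]
  let B1 : ℕ → Finset (ZMod K × ℕ) := fun i => if i < y (k + 1) then
    {k + 1} ×ˢ (range (y (k + 1))).filter (fun j => j = i ∨ cl (k + 1) j ≠ cl (k + 1) i) else ∅
  let B2 : ℕ → Finset (ZMod K × ℕ) := fun i => if i < y (k + 2) ∧ ¬ (i = 2 ∧ ε k) then
    {k + 2} ×ˢ (range (y (k + 2))).filter (fun j => cl (k + 2) j = cl (k + 2) i) else ∅
  let B3 : ℕ → Finset (ZMod K × ℕ) := fun i => Des.filter (fun p => al0 ε k n (nu ε k p) = i)
  let B4 : ℕ → Finset (ZMod K × ℕ) := fun i => if i = 0 ∧ ε (k + 1) then {(k + 3, 2)} else ∅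
  have m1 : ∀ i q, q ∈ B1 i → i < y (k + 1) ∧ q.1 = k + 1 ∧ q.2 < y (k + 1) ∧
      (q.2 = i ∨ cl (k + 1) q.2 ≠ cl (k + 1) i) := by
    intro i q hq
    simp only [B1] at hq
    split_ifs at hq with h
    · simp only [mem_product, mem_singleton, mem_filter, mem_range] at hq
      exact ⟨h, hq.1, hq.2.1, hq.2.2⟩
    · simp at hq
  have m2 : ∀ i q, q ∈ B2 i → (i < y (k + 2) ∧ ¬ (i = 2 ∧ ε k)) ∧ q.1 = k + 2 ∧ q.2 < y (k + 2) ∧
      cl (k + 2) q.2 = cl (k + 2) i := by
    intro i q hq
    simp only [B2] at hq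
    split_ifs at hq with h
    · simp only [mem_product, mem_singleton, mem_filter, mem_range] at hq
      exact ⟨h, hq.1, hq.2.1, hq.2.2⟩
    · simp at hq
  have m3 : ∀ i q, q ∈ B3 i → (q.1 ≠ k ∧ q.1 ≠ k + 1 ∧ q.1 ≠ k + 2 ∧ q.2 < 3) ∧
      al0 ε k n (nu ε k q) = i := by
    intro i q hq
    simp only [B3, mem_filter, hDes] at hq
    exact hq
  have m4 : ∀ i q, q ∈ B4 i → (i = 0 ∧ ε (k + 1)) ∧ q = (k + 3, 2) := by
    intro i q hq
    simp only [B4] at hq
    split_ifs at hq with h
    · exact ⟨h, mem_singleton.1 hq⟩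
    · simp at hq
  let B : ℕ → Finset (ZMod K × ℕ) := fun i => B1 i ∪ B2 i ∪ B3 i ∪ B4 i
  have hB : ∀ i, (B i).card = (B1 i).card + (B2 i).card + (B3 i).card + (B4 i).card := by
    intro i
    simp only [B]
    rw [card_union_of_disjoint, card_union_of_disjoint, card_union_of_disjoint]
    · rw [disjoint_left]
      intro q hq hq'
      exact e21 ((m2 i q hq').2.1.symm.trans (m1 i q hq).2.1)
    · rw [disjoint_left]
      intro q hq hq'
      rcases mem_union.1 hq with hq | hq
      · exact (m3 i q hq').1.2.1 (m1 i q hq).2.1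
      · exact (m3 i q hq').1.2.2.1 (m2 i q hq).2.1
    · rw [disjoint_left]
      intro q hq hq'
      obtain ⟨⟨rfl, he⟩, rfl⟩ := m4 i q hq'
      rcases mem_union.1 hq with hq | hq
      · rcases mem_union.1 hq with hq | hq
        · exact e31 (m1 _ _ hq).2.1
        · exact e32 (m2 _ _ hq).2.1
      · have := (m3 _ _ hq).2
        rw [al0_nu_three hK ε k n he] at this
        omega
  have c1 : ∀ i < y (k + 1), (B1 i).card + cs (cl (k + 1)) (y (k + 1)) i = y (k + 1) + 1 := by
    intro i hi
    simp only [B1, if_pos hi, card_product, card_singleton, one_mul, cs]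
    have e : (range (y (k + 1))).filter (fun j => j = i ∨ cl (k + 1) j ≠ cl (k + 1) i) =
        insert i ((range (y (k + 1))).filter (fun j => ¬ cl (k + 1) j = cl (k + 1) i)) := by
      ext j
      simp only [mem_filter, mem_range, mem_insert]
      constructor
      · rintro ⟨h, h' | h'⟩
        · exact Or.inl h'
        · exact Or.inr ⟨h, h'⟩
      · rintro (rfl | ⟨h, h'⟩)
        · exact ⟨hi, Or.inl rfl⟩
        · exact ⟨h, Or.inr h'⟩
    rw [e, card_insert_of_notMem (by simp)]
    have := card_filter_add_card_filter_not (s := range (y (k + 1)))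
      (fun j => cl (k + 1) j = cl (k + 1) i)
    rw [card_range] at this
    omega
  have c1' : ∀ i, (B1 i).card ≤ y (k + 1) := by
    intro i
    simp only [B1]
    split_ifs
    · rw [card_product, card_singleton, one_mul]
      exact (card_filter_le _ _).trans (card_range _).le
    · simp
  have c2 : ∀ i < y (k + 2), (B2 i).card + (if i = 2 ∧ ε k then 1 else 0) =
      cs (cl (k + 2)) (y (k + 2)) i := by
    intro i hi
    by_cases h : i = 2 ∧ ε k
    · simp only [B2, h, and_self, not_true, and_false, if_false, if_true, card_empty, cs]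
      have : (range (y (k + 2))).filter (fun j => cl (k + 2) j = cl (k + 2) 2) = {2} := by
        ext j
        simp only [mem_filter, mem_range, mem_singleton]
        exact ⟨fun h => hcl _ 2 j (by omega) h.2, fun h => by subst h; exact ⟨by omega, rfl⟩⟩
      rw [this, card_singleton]
    · simp only [B2, hi, h, not_false_iff, and_self, if_true, if_false, card_product,
        card_singleton, one_mul, cs, add_zero]
  have c2' : ∀ i, (B2 i).card ≤ κ := by
    intro i
    by_cases hi : i < y (k + 2)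
    · have := c2 i hi
      have := hκ i hi
      omega
    · simp [B2, hi]
  have c3' : ∀ i, (B3 i).card ≤ 4 * (K / n + 1) + 3 :=
    fun i => card_des_le hK ε k n i Des (fun p hp => (hDes p).1 hp)
  have c4' : ∀ i, (B4 i).card ≤ 1 := by
    intro i
    simp only [B4]
    split_ifs <;> simp
  have s1 : ∑ i ∈ range n, (B1 i).card + (y (k + 1) + R1) = y (k + 1) * (y (k + 1) + 1) := by
    rw [← hR1, ← sum_subset (range_subset_range.2 (show y (k + 1) ≤ n by omega))
      (fun i _ hi => by simp only [mem_range] at hi; simp [B1, hi]), ← sum_add_distrib,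
      sum_congr rfl (fun i hi => c1 i (mem_range.1 hi))]
    simp
  have s2 : ∑ i ∈ range n, (B2 i).card + (if ε k then 1 else 0) = y (k + 2) + R2 := by
    rw [← hR2, ← sum_subset (range_subset_range.2 (show y (k + 2) ≤ n by omega))
      (fun i _ hi => by simp only [mem_range] at hi; simp [B2, hi]),
      ← sum_congr rfl (fun i hi => c2 i (mem_range.1 hi)), sum_add_distrib]
    congr 1
    by_cases h : ε k
    · simp only [h, and_true, if_true, sum_ite_eq', mem_range]
      rw [if_pos (by omega)]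
    · simp [h]
  have s3 : ∑ i ∈ range n, (B3 i).card = Des.card := by
    symm
    apply card_eq_sum_card_fiberwise
    intro p hp
    obtain ⟨p0, p1, p2, -⟩ := (hDes p).1 hp
    have hn0 : 0 < n := by omega
    simp only [coe_range, Set.mem_Iio]
    rcases al0_nu_des hK ε k n p p0 p1 p2 with h | ⟨-, h⟩ | ⟨-, h⟩
    · rw [h]; exact Nat.mod_lt _ hn0
    · rw [h]; exact Nat.mod_lt _ hn0
    · omega
  have s4 : ∑ i ∈ range n, (B4 i).card = if ε (k + 1) then 1 else 0 := by
    by_cases h : ε (k + 1)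
    · have : ∀ i, (B4 i).card = if i = 0 then 1 else 0 := by
        intro i
        simp only [B4, h, and_true]
        split_ifs <;> simp
      simp only [this, h, if_true, sum_ite_eq', mem_range]
      rw [if_pos (by omega)]
    · simp [B4, h]
  have sP : ∑ j, y j ≤ Sg.card + Des.card + y k + y (k + 1) + y (k + 2) := by
    rw [← card_Pts]
    have hsub : Pts y ⊆ Sg ∪ Des ∪ Gs y k ∪ Gs y (k + 1) ∪ Gs y (k + 2) := by
      intro p hp
      rw [mem_Pts] at hp
      simp only [mem_union, hSg, hDes, mem_Gs]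
      by_cases q0 : p.1 = k
      · rw [q0] at hp; simp [q0, hp]
      by_cases q1 : p.1 = k + 1
      · rw [q1] at hp; simp [q1, hp]
      by_cases q2 : p.1 = k + 2
      · rw [q2] at hp; simp [q2, hp]
      by_cases q3 : p.2 < 3
      · simp [q0, q1, q2, q3]
      · simp [q0, q1, q2, hp, not_lt.1 q3]
    refine (card_le_card hsub).trans ?_
    have a1 := card_union_le (Sg ∪ Des ∪ Gs y k ∪ Gs y (k + 1)) (Gs y (k + 2))
    have a2 := card_union_le (Sg ∪ Des ∪ Gs y k) (Gs y (k + 1))
    have a3 := card_union_le (Sg ∪ Des) (Gs y k)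
    have a4 := card_union_le Sg Des
    simp only [card_Gs] at a1 a2 a3
    omega
  have hBle : ∀ i, (B i).card ≤ J - y k := by
    intro i
    have := hB i
    have := c1' i
    have := c2' i
    have := c3' i
    have := c4' i
    omega
  have sB : ∑ i ∈ range n, (J - y k - (B i).card) + ∑ i ∈ range n, (B i).card = n * (J - y k) := by
    rw [← sum_add_distrib, sum_congr rfl (fun i _ => Nat.sub_add_cancel (hBle i))]
    simp
  rw [sum_congr rfl (fun i _ => hB i), sum_add_distrib, sum_add_distrib, sum_add_distrib] at sB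
  obtain ⟨f, hf⟩ := exists_pack n (fun i => J - y k - (B i).card) Sg (by
    rw [mul_add, mul_one] at s1
    omega)
  refine cover_of_nat (by omega) _ _ _ (fun v => if v ∈ Sg then f v else al0 ε k n v) ?_
  have hrho : ∀ p : ZMod K × ℕ, (p.1 = k ∨ p.1 = k + 1 ∨ p.1 = k + 2) → rho ε p ∉ Sg := by
    intro p hp h
    rw [hSg] at h
    rcases rho_snd ε p with e | e
    · rw [e] at h
      tauto
    · omega
  intro i hi
  by_cases hin : n ≤ i
  · left
    refine ⟨rho ε (k, i - n), ⟨(k, i - n), mem_coe.2 (mem_Gs.2 ⟨rfl, by dsimp only; omega⟩), rfl⟩, ?_⟩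
    rw [if_neg (hrho _ (Or.inl rfl)), al0_rho_self hK]
    omega
  · right
    have hin' : i < n := not_le.1 hin
    refine ⟨Gs y k ∪ B i ∪ Sg.filter (fun p => f p = i), ?_, ?_⟩
    · rw [card_union_of_disjoint, card_union_of_disjoint, card_Gs]
      · have := hf i hin'
        have := hBle i
        omega
      · rw [disjoint_left]
        intro q hq hq'
        have hq := (mem_Gs.1 hq).1
        simp only [B, mem_union] at hq'
        rcases hq' with ((hq' | hq') | hq') | hq'
        · exact e10 ((m1 _ _ hq').2.1.symm.trans hq)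
        · exact e20 ((m2 _ _ hq').2.1.symm.trans hq)
        · exact (m3 _ _ hq').1.1 hq
        · rw [(m4 _ _ hq').2] at hq
          exact e30 hq
      · rw [disjoint_left]
        intro q hq hq'
        have hq' := (hSg q).1 (mem_filter.1 hq').1
        simp only [B, mem_union] at hq
        rcases hq with hq | ((hq | hq) | hq) | hq
        · exact hq'.2.1 (mem_Gs.1 hq).1
        · exact hq'.2.2.1 (m1 _ _ hq).2.1
        · exact hq'.2.2.2.1 (m2 _ _ hq).2.1
        · have := (m3 _ _ hq).1.2.2.2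
          omega
        · rw [(m4 _ _ hq).2] at hq'
          simp at hq'
    · intro q hq
      simp only [B, mem_union] at hq
      rcases hq with (hq | ((hq | hq) | hq) | hq) | hq
      · exact Or.inl (mem_coe.2 hq)
      · right
        obtain ⟨a1, a2, a3, a4⟩ := m1 _ _ hq
        refine ⟨rho ε (k + 1, i), ⟨by rw [a2]; exact a3, ?_⟩, ?_⟩
        · rcases a4 with a4 | a4
          · left
            rw [← a2, ← a4]
          · right; left
            exact ⟨i, by rw [a2]; exact a1, by rw [a2], Or.inl ⟨a2, by rw [a2]; exact a4.symm⟩⟩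
        · rw [if_neg (hrho _ (Or.inr (Or.inl rfl))), al0_rho_one hK]
      · right
        obtain ⟨a1, a2, a3, a4⟩ := m2 _ _ hq
        refine ⟨rho ε (k + 2, i), ⟨by rw [a2]; exact a3, ?_⟩, ?_⟩
        · by_cases a5 : i = q.2
          · left
            rw [← a2, a5]
          · right; left
            exact ⟨i, by rw [a2]; exact a1.1, by rw [a2],
              Or.inr ⟨a2, by rw [a2]; exact a4.symm, a5⟩⟩
        · rw [if_neg (hrho _ (Or.inr (Or.inr rfl))), al0_rho_two hK _ _ _ _ a1.2]
      · right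
        obtain ⟨a1, a2⟩ := m3 _ _ hq
        refine ⟨nu ε k q, ⟨by have := hy q.1; omega, ?_⟩, ?_⟩
        · unfold nu
          split_ifs with h
          · right; right; right
            exact ⟨h.2, rfl, h.1⟩
          · left; rfl
        · rw [if_neg, a2]
          intro h
          have := nu_snd ε k q a1.2.2.2
          have := ((hSg _).1 h).2.2.2.2
          omega
      · right
        obtain ⟨⟨rfl, a1⟩, rfl⟩ := m4 _ _ hq
        refine ⟨(k + 1, 0), ⟨by have := hy (k + 3); dsimp only; omega, ?_⟩, ?_⟩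
        · right; right; left
          exact ⟨a1, rfl, rfl⟩
        · rw [if_neg (by simp [hSg]), al0_one_zero hK]
      · right
        obtain ⟨a1, a2⟩ := mem_filter.1 hq
        have a3 := (hSg q).1 a1
        refine ⟨q, ⟨a3.1, Or.inl ?_⟩, by rw [if_pos a1, a2]⟩
        unfold rho
        rw [if_neg (by omega)]

end Pool.Agent.Work.MP_f4b644_ag
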