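import Pool.Agent.Work.MP_f4b644_ag.Pack

/-!
The degeneration along the third factor: points are grouped on the coordinate slices, pairs in a
group move to the next slice or (same class) to the slice after it, and special points fix parity.
-/

set_option autoImplicit false

namespace Pool.Agent.Work.MP_f4b644_ag

open Finset Classical

variable {K : ℕ} [NeZero K]

/-- the points of slice `k` -/
def Gs (y : ZMod K → ℕ) (k : ZMod K) : Finset (ZMod K × ℕ) := {k} ×ˢ range (y k)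

/-- all points -/
noncomputable def Pts (y : ZMod K → ℕ) : Finset (ZMod K × ℕ) := univ.biUnion (Gs y)

omit [NeZero K] in
theorem mem_Gs {y : ZMod K → ℕ} {k : ZMod K} {p : ZMod K × ℕ} :
    p ∈ Gs y k ↔ p.1 = k ∧ p.2 < y k := by
  simp only [Gs, mem_product, mem_singleton, mem_range]

theorem mem_Pts {y : ZMod K → ℕ} {p : ZMod K × ℕ} : p ∈ Pts y ↔ p.2 < y p.1 := by
  simp [Pts, mem_Gs]

omit [NeZero K] in
theorem card_Gs (y : ZMod K → ℕ) (k : ZMod K) : (Gs y k).card = y k := by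
  simp [Gs]

theorem card_Pts (y : ZMod K → ℕ) : (Pts y).card = ∑ k, y k := by
  rw [Pts, card_biUnion]
  · simp [card_Gs]
  · intro k _ k' _ hk
    rw [Function.onFun, disjoint_left]
    intro p hp hp'
    exact hk ((mem_Gs.1 hp).1.symm.trans (mem_Gs.1 hp').1)

/-- the parameter index carrying the limit of the first vector of `p` -/
noncomputable def rho (ε : ZMod K → Prop) (p : ZMod K × ℕ) : ZMod K × ℕ :=
  if p.2 = 2 ∧ ε (p.1 - 2) then (p.1 - 2, 1) else p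

/-- edges available in slice `k` -/
def EA (y : ZMod K → ℕ) (cl : ZMod K → ℕ → ℕ) (ε : ZMod K → Prop) (k : ZMod K)
    (v q : ZMod K × ℕ) : Prop :=
  q.2 < y q.1 ∧ (v = rho ε q ∨ (∃ i < y q.1, v = rho ε (q.1, i) ∧
    ((q.1 = k + 1 ∧ cl q.1 i ≠ cl q.1 q.2) ∨ (q.1 = k + 2 ∧ cl q.1 i = cl q.1 q.2 ∧ i ≠ q.2))) ∨
    (ε (k + 1) ∧ v = (k + 1, 0) ∧ q = (k + 3, 2)) ∨ (ε (k - 2) ∧ v = (k - 2, 0) ∧ q = (k - 2, 1)))

theorem tp_smul_mem {α β γ : Type*} {W : Submodule ℂ (α × β × γ → ℂ)} {a : α → ℂ} {b : β → ℂ}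
    {c : γ → ℂ} {x : ℂ} (hx : x ≠ 0) (h : tp a b (x • c) ∈ W) : tp a b c ∈ W := by
  have := W.smul_mem x⁻¹ h
  refine Eq.mpr (congrArg (· ∈ W) ?_) this
  funext n
  simp only [tp, Pi.smul_apply, smul_eq_mul]
  field_simp

theorem exists_node (K : ℕ) [NeZero K] : ∃ node : ZMod K × ℕ → ℂ, Function.Injective node := by
  obtain ⟨f, hf⟩ := exists_injective_nat (ZMod K × ℕ)
  exact ⟨fun p => (f p : ℂ), fun p q h => hf (Nat.cast_injective (R := ℂ) h)⟩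

theorem designA_span {I J : ℕ} (y : ZMod K → ℕ) (cl : ZMod K → ℕ → ℕ) (ε : ZMod K → Prop)
    (hy : ∀ k, 3 ≤ y k) (hcl : ∀ k i j, i < 3 → cl k j = cl k i → j = i)
    (hcov : ∀ k, Cover (α := Fin I) J (rho ε '' (Gs y k : Set _)) (Gs y k : Set _) (EA y cl ε k)) :
    ∃ (a : ZMod K × ℕ → Fin I → ℂ) (b : ZMod K × ℕ → Fin J → ℂ) (c : ZMod K × ℕ → ZMod K → ℂ),
      TS (Pts y : Set (ZMod K × ℕ)) a b c = ⊤ := by
  obtain ⟨node, hnode⟩ := exists_node K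
  let a₀ : (ZMod K × ℕ → Fin I → ℂ) → ZMod K × ℕ → Fin I → ℂ := fun θ p => θ (rho ε p)
  let a₁ : (ZMod K × ℕ → Fin I → ℂ) → ZMod K × ℕ → Fin I → ℂ := fun θ p =>
    if p.2 = 2 ∧ ε (p.1 - 2) then θ (p.1 - 2, 0) else 0
  let b : ZMod K × ℕ → Fin J → ℂ := fun q => vdm J (node q)
  let c₀ : ZMod K × ℕ → ZMod K → ℂ := fun p => Pi.single p.1 1
  let c₁ : ZMod K × ℕ → ZMod K → ℂ := fun p => (cl p.1 p.2 : ℂ) • Pi.single (p.1 - 1) 1
  let c₂ : ZMod K × ℕ → ZMod K → ℂ := fun p => (p.2 : ℂ) • Pi.single (p.1 - 2) 1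
  have hmem : ∀ {j : ZMod K} {i : ℕ}, i < y j → (j, i) ∈ (Pts y : Set (ZMod K × ℕ)) :=
    fun h => mem_coe.2 (mem_Pts.2 h)
  obtain ⟨θ, hθ⟩ := cert node hnode
    (fun θ => Lim (SD (Pts y : Set (ZMod K × ℕ)) (a₀ θ) (a₁ θ) b c₀ c₁ c₂))
    (fun k => rho ε '' (Gs y k : Set _)) (fun k => (Gs y k : Set _)) (EA y cl ε) (by
      rintro θ k _ ⟨⟨j, i⟩, hp, rfl⟩ f
      obtain ⟨rfl, hi⟩ := mem_Gs.1 (mem_coe.1 hp)
      exact lim_row (a₀ θ) (a₁ θ) b c₀ c₁ c₂ (hmem hi) f) (by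
      rintro θ k ⟨j, i⟩ hp f
      obtain ⟨rfl, hi⟩ := mem_Gs.1 (mem_coe.1 hp)
      exact lim_col (a₀ θ) (a₁ θ) b c₀ c₁ c₂ (hmem hi) f) (by
      rintro θ k v ⟨j, n⟩ ⟨hq, rfl | ⟨i, hi, rfl, ⟨h1, h2⟩ | ⟨h1, h2, h3⟩⟩ | ⟨h1, rfl, h2⟩ |
        ⟨h1, rfl, h2⟩⟩
      · exact lim_single (a₀ θ) (a₁ θ) b c₀ c₁ c₂ (hmem hq) _
      · have := lim_pair1 (a₀ θ) (a₁ θ) b c₀ c₁ c₂ (hmem hi) (hmem hq) rfl
        dsimp only at h1 h2
        subst h1
        refine tp_smul_mem (x := (cl (k + 1) i : ℂ) - (cl (k + 1) n : ℂ))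
          (sub_ne_zero.2 (by exact_mod_cast h2)) ?_
        simpa only [c₁, add_sub_cancel_right, sub_smul] using this
      · dsimp only at h1 h2 h3
        have := lim_pair2 (a₀ θ) (a₁ θ) b c₀ c₁ c₂ (hmem hi) (hmem hq) rfl (by simp only [c₁, h2])
        subst h1
        refine tp_smul_mem (x := (i : ℂ) - (n : ℂ))
          (sub_ne_zero.2 (by exact_mod_cast h3)) ?_
        simpa only [c₂, add_sub_cancel_right, sub_smul] using this
      · obtain ⟨rfl, rfl⟩ := Prod.mk.inj h2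
        have e : k + 3 - 2 = k + 1 := by ring
        have := lim_sp5 (a₀ θ) (a₁ θ) b c₀ c₁ c₂ (p := (k + 3, 2)) (q := (k + 1, 1))
          (q' := (k + 1, 0)) (hmem hq) (hmem (by have := hy (k + 1); omega))
          (hmem (by have := hy (k + 1); omega)) (by simp [a₀, rho, e, h1])
          (by simp [a₀, a₁, rho, e, h1]) (by simp [a₁]) (by simp [a₁]) rfl
        have h3 : cl (k + 1) 1 ≠ cl (k + 1) 0 := fun h => by
          have := hcl (k + 1) 0 1 (by omega) h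
          omega
        refine tp_smul_mem (x := (cl (k + 1) 1 : ℂ) - (cl (k + 1) 0 : ℂ))
          (sub_ne_zero.2 (by exact_mod_cast h3)) ?_
        simpa [c₁, sub_smul, a₀, rho, b] using this
      · obtain ⟨rfl, rfl⟩ := Prod.mk.inj h2
        have := lim_sp6 (a₀ θ) (a₁ θ) b c₀ c₁ c₂ (p := (k, 2)) (q := (k - 2, 1))
          (q' := (k - 2, 0)) (hmem (by have := hy k; omega)) (hmem hq)
          (by simp [a₀, rho, h1]) (by simp [a₀, a₁, rho, h1]) (by simp [a₁])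
        simpa [c₀, a₀, rho, b] using this) hcov
  obtain ⟨t, -, ht⟩ := exists_top_of_Lim _ hθ
  exact ⟨_, _, _, ht⟩

end Pool.Agent.Work.MP_f4b644_ag
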