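import Pool.Agent.Work.MP_f4b644_ag.Generic

/-!
Polynomial maps: a submersion at one point has dense image, and a map from a space of smaller
dimension satisfies a nontrivial polynomial equation.
-/

set_option autoImplicit false

namespace Pool.Agent.Work.MP_f4b644_ag

open MvPolynomial Topology Filter

theorem poly_eq_zero_of_eventually {τ : Type*} [Fintype τ] (g : MvPolynomial τ ℂ) (y : τ → ℂ)
    (h : ∀ᶠ z in 𝓝 y, eval z g = 0) : g = 0 := by
  have := (AnalyticOnNhd.eval_mvPolynomial (𝕜 := ℂ) g).eqOn_zero_of_preconnected_of_eventuallyEq_zero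
    isPreconnected_univ (Set.mem_univ y) h
  apply MvPolynomial.funext
  intro z
  simpa using this (Set.mem_univ z)

theorem dense_ne_zero {τ : Type*} [Fintype τ] (g : MvPolynomial τ ℂ) (hg : g ≠ 0) :
    Dense {y : τ → ℂ | eval y g ≠ 0} := by
  intro y
  by_contra hy
  apply hg
  apply poly_eq_zero_of_eventually g y
  rw [mem_closure_iff_frequently, Filter.not_frequently] at hy
  exact hy.mono fun z hz => by simpa using hz

theorem constructible_generic {R : Type*} [CommRing R] [IsDomain R]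
    (s : Set (PrimeSpectrum R)) (hs : IsConstructible s) :
    ∃ g : R, g ≠ 0 ∧ ∀ p : PrimeSpectrum R, g ∉ p.asIdeal →
      (p ∈ s ↔ (⟨⊥, Ideal.isPrime_bot⟩ : PrimeSpectrum R) ∈ s) := by
  induction hs using IsConstructible.empty_union_induction with
  | open_retrocompact U hU _ =>
    by_cases h0 : (⟨⊥, Ideal.isPrime_bot⟩ : PrimeSpectrum R) ∈ U
    · obtain ⟨_, ⟨g, rfl⟩, hg, hgU⟩ :=
        PrimeSpectrum.isTopologicalBasis_basic_opens.exists_subset_of_mem_open h0 hU
      refine ⟨g, ?_, fun p hp => ⟨fun _ => h0, fun _ => hgU hp⟩⟩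
      rintro rfl
      simp at hg
    · refine ⟨1, one_ne_zero, fun p _ => ⟨fun hp => ?_, fun h => absurd h h0⟩⟩
      obtain ⟨_, ⟨g, rfl⟩, hg, hgU⟩ :=
        PrimeSpectrum.isTopologicalBasis_basic_opens.exists_subset_of_mem_open hp hU
      apply hgU
      change g ∉ (⊥ : Ideal R)
      intro h
      rw [Ideal.mem_bot] at h
      subst h
      simp at hg
  | union s hs t ht ihs iht =>
    obtain ⟨g, hg, h⟩ := ihs
    obtain ⟨g', hg', h'⟩ := iht
    refine ⟨g * g', mul_ne_zero hg hg', fun p hp => ?_⟩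
    have h1 : g ∉ p.asIdeal := fun hh => hp (Ideal.mul_mem_right _ _ hh)
    have h2 : g' ∉ p.asIdeal := fun hh => hp (Ideal.mul_mem_left _ _ hh)
    simp only [Set.mem_union, h p h1, h' p h2]
  | compl s hs ih =>
    obtain ⟨g, hg, h⟩ := ih
    exact ⟨g, hg, fun p hp => by simp only [Set.mem_compl_iff, h p hp]⟩

theorem dense_range_of_inj {σ τ : Type} [Fintype σ] [Fintype τ] (F : τ → MvPolynomial σ ℂ)
    (hinj : Function.Injective (aeval F : MvPolynomial τ ℂ →ₐ[ℂ] MvPolynomial σ ℂ)) :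
    Dense (Set.range fun x : σ → ℂ => fun n => eval x (F n)) := by
  set φ : MvPolynomial τ ℂ →ₐ[ℂ] MvPolynomial σ ℂ := aeval F with hφ
  have hft : φ.toRingHom.FiniteType := by
    apply RingHom.FiniteType.of_comp_finiteType (f := algebraMap ℂ (MvPolynomial τ ℂ))
    have : φ.toRingHom.comp (algebraMap ℂ (MvPolynomial τ ℂ)) = algebraMap ℂ (MvPolynomial σ ℂ) :=
      φ.comp_algebraMap
    rw [this, RingHom.finiteType_algebraMap]
    infer_instance
  have hfp : φ.toRingHom.FinitePresentation := RingHom.FinitePresentation.of_finiteType.1 hft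
  obtain ⟨g, hg, h⟩ := constructible_generic _ (PrimeSpectrum.isConstructible_range_comap hfp)
  have h0 : (⟨⊥, Ideal.isPrime_bot⟩ : PrimeSpectrum (MvPolynomial τ ℂ)) ∈
      Set.range (PrimeSpectrum.comap φ.toRingHom) := by
    refine ⟨⟨⊥, Ideal.isPrime_bot⟩, ?_⟩
    ext p
    simp only [PrimeSpectrum.comap_asIdeal, Ideal.mem_comap, Ideal.mem_bot]
    exact ⟨fun hp => hinj (by simpa using hp), fun hp => by simp [hp]⟩
  refine (dense_ne_zero g hg).mono ?_
  intro y hy
  have hy' : g ∉ (⟨vanishingIdeal ℂ {y}, inferInstance⟩ : PrimeSpectrum (MvPolynomial τ ℂ)).asIdeal := by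
    intro hh
    exact hy (by simpa [mem_vanishingIdeal_singleton_iff, aeval_eq_eval] using hh)
  obtain ⟨q, hq⟩ := (h _ hy').2 h0
  obtain ⟨m, hm, hqm⟩ := Ideal.exists_le_maximal q.asIdeal q.isPrime.ne_top
  obtain ⟨x, rfl⟩ := isMaximal_iff_eq_vanishingIdeal_singleton.1 hm
  refine ⟨x, ?_⟩
  funext n
  have h1 : (X n - C (y n) : MvPolynomial τ ℂ) ∈
      (PrimeSpectrum.comap φ.toRingHom q).asIdeal := by
    rw [hq]
    change _ ∈ vanishingIdeal ℂ {y}
    simp
  have h2 := hqm h1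
  rw [mem_vanishingIdeal_singleton_iff] at h2
  simpa [hφ, sub_eq_zero, aeval_eq_eval] using h2

theorem dense_range_of_lines {σ τ : Type} [Fintype σ] [Fintype τ] (F : τ → MvPolynomial σ ℂ)
    (x₀ : σ → ℂ)
    (h : Submodule.span ℂ {w : τ → ℂ | ∃ v : σ → ℂ, ∀ s : ℂ, ∀ n,
      eval (x₀ + s • v) (F n) = eval x₀ (F n) + s * w n} = ⊤) :
    Dense (Set.range fun x : σ → ℂ => fun n => eval x (F n)) := by
  apply dense_range_of_inj
  set Φ : (σ → ℂ) → τ → ℂ := fun x n => eval x (F n) with hΦ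
  have han : AnalyticAt ℂ Φ x₀ :=
    analyticAt_pi_iff.2 fun n => AnalyticOnNhd.eval_mvPolynomial (𝕜 := ℂ) (F n) x₀ (Set.mem_univ _)
  have hd : HasStrictFDerivAt Φ (fderiv ℂ Φ x₀) x₀ := han.hasStrictFDerivAt
  have hr : (fderiv ℂ Φ x₀).range = ⊤ := by
    rw [eq_top_iff, ← h, Submodule.span_le]
    rintro w ⟨v, hv⟩
    refine ⟨v, ?_⟩
    have h1 : HasDerivAt (fun s : ℂ => Φ (x₀ + s • v)) (fderiv ℂ Φ x₀ v) 0 :=
      hd.hasFDerivAt.hasLineDerivAt v
    have h2 : HasDerivAt (fun s : ℂ => Φ (x₀ + s • v)) w 0 := by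
      have e : (fun s : ℂ => Φ (x₀ + s • v)) = fun s : ℂ => Φ x₀ + s • w := by
        funext s n
        simpa [hΦ] using hv s n
      rw [e]
      simpa using ((hasDerivAt_id (0 : ℂ)).smul_const w).const_add (Φ x₀)
    exact h1.unique h2
  have hmap := hd.map_nhds_eq_of_surj hr
  rw [injective_iff_map_eq_zero]
  intro g hg
  apply poly_eq_zero_of_eventually g (Φ x₀)
  rw [← hmap, Filter.eventually_map]
  refine Filter.Eventually.of_forall fun x => ?_
  have := comp_aeval_apply F (aeval x : MvPolynomial σ ℂ →ₐ[ℂ] ℂ) g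
  rw [hg] at this
  simpa [aeval_eq_eval, hΦ] using this.symm

theorem exists_relation {σ τ : Type} [Fintype σ] [Fintype τ] (F : τ → MvPolynomial σ ℂ)
    (h : Fintype.card σ < Fintype.card τ) :
    ∃ g : MvPolynomial τ ℂ, g ≠ 0 ∧ ∀ x : σ → ℂ, eval (fun n => eval x (F n)) g = 0 := by
  have hna : ¬ AlgebraicIndependent ℂ F := by
    intro ha
    have := ha.cardinalMk_le_trdeg
    rw [MvPolynomial.trdeg_of_isDomain] at this
    simp only [Cardinal.mk_fintype, Cardinal.lift_natCast, Nat.cast_le] at this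
    omega
  rw [algebraicIndependent_iff] at hna
  push Not at hna
  obtain ⟨g, hg, hg0⟩ := hna
  refine ⟨g, hg0, fun x => ?_⟩
  have := comp_aeval_apply F (aeval x : MvPolynomial σ ℂ →ₐ[ℂ] ℂ) g
  rw [hg] at this
  simpa [aeval_eq_eval] using this.symm

end Pool.Agent.Work.MP_f4b644_ag
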