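import Mathlib

/-!
Generic spanning: polynomial families of vectors that span at one parameter span on the
non-vanishing set of a polynomial function.
-/

set_option autoImplicit false

namespace Pool.Agent.Work.MP_f4b644_ag

open Module

/-- polynomial functions on `σ → ℂ` -/
noncomputable def PF (σ : Type*) : Subalgebra ℂ ((σ → ℂ) → ℂ) :=
  (AlgHom.pi (fun x : σ → ℂ => MvPolynomial.aeval (R := ℂ) x)).range

theorem mem_PF {σ : Type*} {f : (σ → ℂ) → ℂ} :
    f ∈ PF σ ↔ ∃ p : MvPolynomial σ ℂ, ∀ x, f x = MvPolynomial.eval x p := by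
  constructor
  · rintro ⟨p, rfl⟩
    exact ⟨p, fun x => by simp [MvPolynomial.aeval_eq_eval]⟩
  · rintro ⟨p, hp⟩
    refine ⟨p, ?_⟩
    funext x
    simp [hp, MvPolynomial.aeval_eq_eval]

theorem coord_mem_PF {σ : Type*} (s : σ) : (fun x : σ → ℂ => x s) ∈ PF σ :=
  mem_PF.2 ⟨MvPolynomial.X s, fun x => by simp⟩

theorem const_mem_PF {σ : Type*} (c : ℂ) : (fun _ : σ → ℂ => c) ∈ PF σ :=
  mem_PF.2 ⟨MvPolynomial.C c, fun x => by simp⟩

theorem PF_mul {σ : Type*} {f g : (σ → ℂ) → ℂ} (hf : f ∈ PF σ) (hg : g ∈ PF σ) :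
    (fun x => f x * g x) ∈ PF σ := (PF σ).mul_mem hf hg

theorem PF_add {σ : Type*} {f g : (σ → ℂ) → ℂ} (hf : f ∈ PF σ) (hg : g ∈ PF σ) :
    (fun x => f x + g x) ∈ PF σ := (PF σ).add_mem hf hg

theorem PF_sub {σ : Type*} {f g : (σ → ℂ) → ℂ} (hf : f ∈ PF σ) (hg : g ∈ PF σ) :
    (fun x => f x - g x) ∈ PF σ := (PF σ).sub_mem hf hg

theorem PF_domain {σ : Type*} {f g : (σ → ℂ) → ℂ} (hf : f ∈ PF σ) (hg : g ∈ PF σ)
    (x y : σ → ℂ) (hx : f x ≠ 0) (hy : g y ≠ 0) : ∃ z, f z ≠ 0 ∧ g z ≠ 0 := by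
  obtain ⟨p, hp⟩ := mem_PF.1 hf
  obtain ⟨q, hq⟩ := mem_PF.1 hg
  have hp0 : p ≠ 0 := by
    rintro rfl
    exact hx (by simp [hp])
  have hq0 : q ≠ 0 := by
    rintro rfl
    exact hy (by simp [hq])
  by_contra hcon
  push Not at hcon
  have : p * q = 0 := by
    apply MvPolynomial.funext
    intro z
    by_cases hz : f z = 0
    · simp [← hp, hz]
    · simp [← hq, hcon z hz]
  exact mul_ne_zero hp0 hq0 this

theorem PF_exists_forall {σ ι : Type*} (s : Finset ι) (f : ι → (σ → ℂ) → ℂ)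
    (hf : ∀ i ∈ s, f i ∈ PF σ) (hx : ∀ i ∈ s, ∃ x, f i x ≠ 0) : ∃ z, ∀ i ∈ s, f i z ≠ 0 := by
  classical
  suffices h : ∃ z, ∏ i ∈ s, f i z ≠ 0 by
    obtain ⟨z, hz⟩ := h
    exact ⟨z, fun i hi => (Finset.prod_ne_zero_iff.1 hz) i hi⟩
  induction s using Finset.induction_on with
  | empty => exact ⟨0, by simp⟩
  | insert a s ha ih =>
    obtain ⟨z, hz⟩ := ih (fun i hi => hf i (Finset.mem_insert_of_mem hi))
      (fun i hi => hx i (Finset.mem_insert_of_mem hi))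
    obtain ⟨x, hx'⟩ := hx a (Finset.mem_insert_self _ _)
    have hP : (fun z => ∏ i ∈ s, f i z) ∈ PF σ := by
      have := (PF σ).prod_mem (t := s) (f := f) (fun i hi => hf i (Finset.mem_insert_of_mem hi))
      have e : (∏ i ∈ s, f i) = fun z => ∏ i ∈ s, f i z := by
        funext z; simp
      rwa [e] at this
    obtain ⟨w, hw1, hw2⟩ := PF_domain (hf a (Finset.mem_insert_self _ _)) hP x z hx' hz
    exact ⟨w, by rw [Finset.prod_insert ha]; exact mul_ne_zero hw1 hw2⟩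

/-- polynomial vector functions -/
def IsPV {σ N : Type*} (w : (σ → ℂ) → N → ℂ) : Prop := ∀ n, (fun x => w x n) ∈ PF σ

theorem generic_span {σ N : Type*} [Fintype N] (G : Set ((σ → ℂ) → N → ℂ))
    (hG : ∀ w ∈ G, IsPV w) (x₀ : σ → ℂ)
    (h : Submodule.span ℂ ((fun w => w x₀) '' G) = ⊤) :
    ∃ F ∈ PF σ, F x₀ ≠ 0 ∧ ∀ x, F x ≠ 0 → Submodule.span ℂ ((fun w => w x) '' G) = ⊤ := by
  classical
  have hev : ∀ x : σ → ℂ, Submodule.span ℂ ((fun w => w x) '' G) =
      (Submodule.span ℂ G).map (LinearMap.proj (R := ℂ) (φ := fun _ : σ → ℂ => N → ℂ) x) := by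
    intro x
    rw [Submodule.map_span]
    rfl
  have hW : ∀ w ∈ Submodule.span ℂ G, IsPV w := by
    intro w hw
    induction hw using Submodule.span_induction with
    | mem w hw => exact hG w hw
    | zero => intro n; exact const_mem_PF 0
    | add u v _ _ hu hv => intro n; exact PF_add (hu n) (hv n)
    | smul c u _ hu => intro n; exact PF_mul (const_mem_PF c) (hu n)
  rw [hev] at h
  have hex : ∀ n : N, ∃ w ∈ Submodule.span ℂ G, w x₀ = Pi.single n 1 := by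
    intro n
    have : (Pi.single n 1 : N → ℂ) ∈ (Submodule.span ℂ G).map
        (LinearMap.proj (R := ℂ) (φ := fun _ : σ → ℂ => N → ℂ) x₀) := by
      rw [h]; trivial
    obtain ⟨w, hw, e⟩ := this
    exact ⟨w, hw, e⟩
  choose w hw hw0 using hex
  refine ⟨fun x => (Matrix.of fun n m => w n x m).det, ?_, ?_, ?_⟩
  · have e : (fun x => (Matrix.of fun n m => w n x m).det) =
        ∑ π : Equiv.Perm N, (Equiv.Perm.sign π : ℤ) • ∏ i, (fun x => w (π i) x i) := by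
      funext x
      simp [Matrix.det_apply, Finset.sum_apply, Finset.prod_apply, Units.smul_def]
    rw [e]
    exact (PF σ).sum_mem fun π _ => (PF σ).zsmul_mem
      ((PF σ).prod_mem fun i _ => hW _ (hw _) i) _
  · have : (Matrix.of fun n m => w n x₀ m) = 1 := by
      ext n m
      simp [hw0, Matrix.one_apply, Pi.single_apply, eq_comm]
    simp [this]
  · intro x hx
    rw [hev, eq_top_iff]
    intro v _
    set M : Matrix N N ℂ := Matrix.of fun n m => w n x m with hM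
    have hu : IsUnit M.det := isUnit_iff_ne_zero.2 hx
    have : v = ∑ n, (Matrix.vecMul v M⁻¹ n) • w n x := by
      have h1 : Matrix.vecMul (Matrix.vecMul v M⁻¹) M = v := by
        rw [Matrix.vecMul_vecMul, Matrix.nonsing_inv_mul _ hu, Matrix.vecMul_one]
      funext m
      conv_lhs => rw [← h1]
      simp [Matrix.vecMul, dotProduct, hM, Finset.sum_apply]
    rw [this]
    exact Submodule.sum_mem _ fun n _ => Submodule.smul_mem _ _ ⟨w n, hw n, rfl⟩

/-- the space of limits at `t = 0` of polynomial curves lying in `S t` for `t ≠ 0` -/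
def Lim {N : Type*} (S : ℂ → Submodule ℂ (N → ℂ)) : Submodule ℂ (N → ℂ) where
  carrier := {v | ∃ w : ℂ → N → ℂ, IsPV (fun x : Unit → ℂ => w (x ())) ∧ w 0 = v ∧
    ∀ t, t ≠ 0 → w t ∈ S t}
  add_mem' := by
    rintro u v ⟨w, hw, rfl, hS⟩ ⟨w', hw', rfl, hS'⟩
    exact ⟨w + w', fun n => PF_add (hw n) (hw' n), rfl, fun t ht => (S t).add_mem (hS t ht) (hS' t ht)⟩
  zero_mem' := ⟨0, fun n => const_mem_PF 0, rfl, fun t _ => (S t).zero_mem⟩
  smul_mem' := by
    rintro c v ⟨w, hw, rfl, hS⟩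
    exact ⟨c • w, fun n => PF_mul (const_mem_PF c) (hw n), rfl,
      fun t ht => (S t).smul_mem c (hS t ht)⟩

theorem exists_top_of_Lim {N : Type*} [Fintype N] (S : ℂ → Submodule ℂ (N → ℂ))
    (h : Lim S = ⊤) : ∃ t, t ≠ 0 ∧ S t = ⊤ := by
  let G : Set ((Unit → ℂ) → N → ℂ) := {w | IsPV w ∧ ∀ x, x () ≠ 0 → w x ∈ S (x ())}
  obtain ⟨F, hF, hF0, hFx⟩ := generic_span G (fun w hw => hw.1) 0 (by
    rw [eq_top_iff, ← h]
    rintro v ⟨w, hw, rfl, hS⟩
    exact Submodule.subset_span ⟨fun x => w (x ()), ⟨hw, fun x hx => hS _ hx⟩, rfl⟩)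
  obtain ⟨z, hz1, hz2⟩ := PF_domain hF (coord_mem_PF ()) 0 1 hF0 (by simp)
  refine ⟨z (), hz2, ?_⟩
  rw [eq_top_iff, ← hFx z hz1, Submodule.span_le]
  rintro v ⟨w, hw, rfl⟩
  exact hw.2 z hz2

end Pool.Agent.Work.MP_f4b644_ag
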