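import Pool.Agent.Work.MP_f4b644_ag.Cert

/-!
Elementary packing and counting lemmas.
-/

set_option autoImplicit false

namespace Pool.Agent.Work.MP_f4b644_ag

open Finset

theorem exists_pack {P : Type*} [DecidableEq P] (n : ℕ) (D : ℕ → ℕ) (S : Finset P)
    (h : ∑ i ∈ range n, D i ≤ S.card) :
    ∃ f : P → ℕ, ∀ i < n, D i ≤ (S.filter (fun p => f p = i)).card := by
  induction n generalizing S with
  | zero => exact ⟨fun _ => 0, fun i hi => absurd hi (Nat.not_lt_zero _)⟩
  | succ n ih =>
    rw [sum_range_succ] at h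
    obtain ⟨T, hTS, hT⟩ := exists_subset_card_eq (s := S) (n := D n) (by omega)
    obtain ⟨f, hf⟩ := ih (S \ T) (by rw [card_sdiff_of_subset hTS]; omega)
    refine ⟨fun p => if p ∈ T then n else f p, fun i hi => ?_⟩
    rcases Nat.lt_succ_iff_lt_or_eq.1 hi with hi | rfl
    · refine (hf i hi).trans (card_le_card ?_)
      intro p hp
      simp only [mem_filter, mem_sdiff] at hp ⊢
      exact ⟨hp.1.1, by rw [if_neg hp.1.2]; exact hp.2⟩
    · rw [← hT]
      refine card_le_card ?_
      intro p hp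
      simp only [mem_filter]
      exact ⟨hTS hp, by rw [if_pos hp]⟩

theorem cover_of_nat {P : Type*} {I J : ℕ} (hI : 0 < I) (Rv Rc : Set P) (E : P → P → Prop)
    (row : P → ℕ) (h : ∀ i < I, (∃ v ∈ Rv, row v = i) ∨
      ∃ T : Finset P, J ≤ T.card ∧ ∀ q ∈ T, q ∈ Rc ∨ ∃ v, E v q ∧ row v = i) :
    Cover (α := Fin I) J Rv Rc E := by
  refine ⟨fun v => if h : row v < I then ⟨row v, h⟩ else ⟨0, hI⟩, fun i => ?_⟩
  have key : ∀ v, row v = i → (if h : row v < I then (⟨row v, h⟩ : Fin I) else ⟨0, hI⟩) = i := by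
    intro v hv
    rw [dif_pos (hv ▸ i.2)]
    exact Fin.ext hv
  rcases h i i.2 with ⟨v, hv, e⟩ | ⟨T, hT, hq⟩
  · exact Or.inl ⟨v, hv, key v e⟩
  · refine Or.inr ⟨T, hT, fun q hqT => ?_⟩
    rcases hq q hqT with h | ⟨v, hv, e⟩
    · exact Or.inl h
    · exact Or.inr ⟨v, hv, key v e⟩

/-- size of the class of `i` among the indices below `y` -/
def cs (cl : ℕ → ℕ) (y i : ℕ) : ℕ := ((range y).filter (fun j => cl j = cl i)).card

theorem exists_cl (y κ d : ℕ) (h : 3 + κ + 2 * d ≤ y) :
    ∃ cl : ℕ → ℕ, (∀ i j, i < 3 → cl j = cl i → j = i) ∧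
      (∑ i ∈ range y, cs cl y i = y + (κ * (κ - 1) + 2 * d)) ∧ ∀ i < y, cs cl y i ≤ κ + 2 := by
  let cl : ℕ → ℕ := fun i => if i < 3 then i else if i < 3 + κ then 3 else
    if i < 3 + κ + 2 * d then 3 + κ + 2 * ((i - 3 - κ) / 2) else i
  have hcs : ∀ i < y, cs cl y i = 1 + (if i ∈ Ico 3 (3 + κ) then κ - 1 else 0) +
      (if i ∈ Ico (3 + κ) (3 + κ + 2 * d) then 1 else 0) := by
    intro i hi
    unfold cs
    by_cases h1 : i ∈ Ico 3 (3 + κ)
    · have : (range y).filter (fun j => cl j = cl i) = Ico 3 (3 + κ) := by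
        ext j
        simp only [mem_filter, mem_range, mem_Ico, cl] at h1 ⊢
        split_ifs <;> omega
      rw [this, if_pos h1, if_neg (by simp only [mem_Ico] at h1 ⊢; omega), Nat.card_Ico]
      simp only [mem_Ico] at h1
      omega
    · by_cases h2 : i ∈ Ico (3 + κ) (3 + κ + 2 * d)
      · have : (range y).filter (fun j => cl j = cl i) =
            Ico (3 + κ + 2 * ((i - 3 - κ) / 2)) (3 + κ + 2 * ((i - 3 - κ) / 2) + 2) := by
          ext j
          simp only [mem_filter, mem_range, mem_Ico, cl] at h1 h2 ⊢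
          split_ifs <;> omega
        rw [this, if_neg h1, if_pos h2, Nat.card_Ico]
        omega
      · have : (range y).filter (fun j => cl j = cl i) = {i} := by
          ext j
          simp only [mem_filter, mem_range, mem_Ico, cl, mem_singleton] at h1 h2 ⊢
          split_ifs <;> omega
        rw [this, if_neg h1, if_neg h2, card_singleton]
  refine ⟨cl, ?_, ?_, ?_⟩
  · intro i j hi
    simp only [cl]
    split_ifs <;> omega
  · rw [sum_congr rfl (fun i hi => hcs i (mem_range.1 hi)), sum_add_distrib, sum_add_distrib,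
      sum_ite_mem, sum_ite_mem]
    have e1 : range y ∩ Ico 3 (3 + κ) = Ico 3 (3 + κ) := by
      ext j; simp only [mem_inter, mem_range, mem_Ico]; omega
    have e2 : range y ∩ Ico (3 + κ) (3 + κ + 2 * d) = Ico (3 + κ) (3 + κ + 2 * d) := by
      ext j; simp only [mem_inter, mem_range, mem_Ico]; omega
    rw [e1, e2]
    simp [add_assoc]
    omega
  · intro i hi
    rw [hcs i hi]
    split_ifs <;> omega

theorem card_mod_le (K n i : ℕ) [NeZero K] :
    ((univ : Finset (ZMod K)).filter (fun j => j.val % n = i)).card ≤ K / n + 1 := by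
  rw [← card_range (K / n + 1)]
  refine card_le_card_of_injOn (fun j => j.val / n) ?_ ?_
  · intro j _
    simp only [coe_range, Set.mem_Iio]
    exact Nat.lt_succ_of_le (Nat.div_le_div_right (ZMod.val_lt j).le)
  · intro j hj j' hj' e
    simp only [coe_filter, mem_univ, true_and, Set.mem_ofPred_eq] at hj hj'
    apply ZMod.val_injective
    have e' : j.val / n = j'.val / n := e
    rw [← Nat.div_add_mod j.val n, ← Nat.div_add_mod j'.val n, e', hj, hj']

end Pool.Agent.Work.MP_f4b644_ag
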