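import Pool.Agent.Work.MP_f4b644_ag.Dominant

/-!
Terracini direction (spanning tangent spaces give density) and the parameter count lower bound.
-/

set_option autoImplicit false

namespace Pool.Agent.Work.MP_f4b644_ag

open MvPolynomial

/-- decomposable tensor -/
def tp {α β γ : Type*} (a : α → ℂ) (b : β → ℂ) (c : γ → ℂ) : α × β × γ → ℂ :=
  fun n => a n.1 * b n.2.1 * c n.2.2

/-- sum of the affine tangent spaces of the Segre cone at the points indexed by `s` -/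
def TS {ι α β γ : Type*} (s : Set ι) (a : ι → α → ℂ) (b : ι → β → ℂ) (c : ι → γ → ℂ) :
    Submodule ℂ (α × β × γ → ℂ) :=
  Submodule.span ℂ {w | ∃ l ∈ s, (∃ a', w = tp a' (b l) (c l)) ∨ (∃ b', w = tp (a l) b' (c l)) ∨
    (∃ c', w = tp (a l) (b l) c')}

section
variable {ι α β γ : Type*} {s : Set ι} {a : ι → α → ℂ} {b : ι → β → ℂ} {c : ι → γ → ℂ}

theorem TS_mem1 {l : ι} (hl : l ∈ s) (a' : α → ℂ) : tp a' (b l) (c l) ∈ TS s a b c :=
  Submodule.subset_span ⟨l, hl, Or.inl ⟨a', rfl⟩⟩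

theorem TS_mem2 {l : ι} (hl : l ∈ s) (b' : β → ℂ) : tp (a l) b' (c l) ∈ TS s a b c :=
  Submodule.subset_span ⟨l, hl, Or.inr (Or.inl ⟨b', rfl⟩)⟩

theorem TS_mem3 {l : ι} (hl : l ∈ s) (c' : γ → ℂ) : tp (a l) (b l) c' ∈ TS s a b c :=
  Submodule.subset_span ⟨l, hl, Or.inr (Or.inr ⟨c', rfl⟩)⟩

end

/-- tensors of rank at most `r` -/
def RankSet (I J K r : ℕ) : Set (Fin I → Fin J → Fin K → ℂ) :=
  {T | ∃ a : Fin r → Fin I → ℂ, ∃ b : Fin r → Fin J → ℂ, ∃ c : Fin r → Fin K → ℂ,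
    T = fun i j k => ∑ l : Fin r, a l i * b l j * c l k}

/-- the universal sum of `r` decomposable tensors -/
noncomputable def univT (I J K r : ℕ) (n : Fin I × Fin J × Fin K) :
    MvPolynomial ((Fin r × Fin I) ⊕ (Fin r × Fin J) ⊕ (Fin r × Fin K)) ℂ :=
  ∑ l : Fin r, X (Sum.inl (l, n.1)) * X (Sum.inr (Sum.inl (l, n.2.1))) *
    X (Sum.inr (Sum.inr (l, n.2.2)))

theorem dense_of_TS_univ {I J K r : ℕ} (a : Fin r → Fin I → ℂ) (b : Fin r → Fin J → ℂ)
    (c : Fin r → Fin K → ℂ) (h : TS Set.univ a b c = ⊤) : Dense (RankSet I J K r) := by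
  classical
  let x₀ : (Fin r × Fin I) ⊕ (Fin r × Fin J) ⊕ (Fin r × Fin K) → ℂ :=
    Sum.elim (fun p => a p.1 p.2) (Sum.elim (fun p => b p.1 p.2) (fun p => c p.1 p.2))
  have hd := dense_range_of_lines (univT I J K r) x₀ (by
    rw [eq_top_iff, ← h]
    apply Submodule.span_mono
    rintro w ⟨l, -, ⟨a', rfl⟩ | ⟨b', rfl⟩ | ⟨c', rfl⟩⟩
    · refine ⟨Sum.elim (fun p => if p.1 = l then a' p.2 else 0) 0, fun s n => ?_⟩
      simp [univT, x₀, tp, add_mul, Finset.sum_add_distrib, mul_assoc]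
    · refine ⟨Sum.elim 0 (Sum.elim (fun p => if p.1 = l then b' p.2 else 0) 0), fun s n => ?_⟩
      simp [univT, x₀, tp, add_mul, mul_add, Finset.sum_add_distrib]
      ring
    · refine ⟨Sum.elim 0 (Sum.elim 0 (fun p => if p.1 = l then c' p.2 else 0)), fun s n => ?_⟩
      simp [univT, x₀, tp, mul_add, Finset.sum_add_distrib]
      ring)
  let cur : (Fin I × Fin J × Fin K → ℂ) → (Fin I → Fin J → Fin K → ℂ) := fun w i j k => w (i, j, k)
  have hc : Continuous cur := by fun_prop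
  have hs : Function.Surjective cur := fun T => ⟨fun n => T n.1 n.2.1 n.2.2, rfl⟩
  have := hs.denseRange.comp hd hc
  refine Dense.mono ?_ this
  rintro T ⟨x, rfl⟩
  refine ⟨fun l i => x (Sum.inl (l, i)), fun l j => x (Sum.inr (Sum.inl (l, j))),
    fun l k => x (Sum.inr (Sum.inr (l, k))), ?_⟩
  funext i j k
  simp [cur, univT]

theorem dense_of_TS {ι : Type*} {I J K r : ℕ} (s : Finset ι) (hs : s.card ≤ r)
    (a : ι → Fin I → ℂ) (b : ι → Fin J → ℂ) (c : ι → Fin K → ℂ) (h : TS (s : Set ι) a b c = ⊤) :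
    Dense (RankSet I J K r) := by
  classical
  obtain ⟨e⟩ : Nonempty (s ↪ Fin r) := Function.Embedding.nonempty_of_card_le (by simpa using hs)
  apply dense_of_TS_univ (Function.extend e (fun p => a p) 0) (Function.extend e (fun p => b p) 0)
    (Function.extend e (fun p => c p) 0)
  rw [eq_top_iff, ← h]
  apply Submodule.span_mono
  rintro w ⟨l, hl, hw⟩
  refine ⟨e ⟨l, hl⟩, trivial, ?_⟩
  simpa [e.injective.extend_apply] using hw

theorem not_dense_of_lt {I J K r : ℕ} (h : r * (I + J + K) < (I + 1) * (J + 1) * K) :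
    ¬ Dense (RankSet (I + 1) (J + 1) K r) := by
  classical
  intro hd
  let F : Fin (I + 1) × Fin (J + 1) × Fin K → MvPolynomial (Fin r × (Fin I ⊕ Fin J ⊕ Fin K)) ℂ :=
    fun n => ∑ l : Fin r, (Fin.cases 1 (fun i => X (l, Sum.inl i)) n.1 :
        MvPolynomial (Fin r × (Fin I ⊕ Fin J ⊕ Fin K)) ℂ) *
      (Fin.cases 1 (fun j => X (l, Sum.inr (Sum.inl j))) n.2.1 :
        MvPolynomial (Fin r × (Fin I ⊕ Fin J ⊕ Fin K)) ℂ) * X (l, Sum.inr (Sum.inr n.2.2))
  obtain ⟨g, hg, hgF⟩ := exists_relation F (by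
    simp only [Fintype.card_prod, Fintype.card_sum, Fintype.card_fin]
    rw [← add_assoc, ← mul_assoc]
    exact h)
  have key : ∀ x, eval (fun n => eval x (univT (I + 1) (J + 1) K r n)) g = 0 := by
    intro y
    by_contra hy
    have h1 : (fun x => eval (fun n => eval x (univT (I + 1) (J + 1) K r n)) g) ∈ PF _ := by
      refine mem_PF.2 ⟨aeval (univT (I + 1) (J + 1) K r) g, fun x => ?_⟩
      have := comp_aeval_apply (univT (I + 1) (J + 1) K r)
        (aeval x : MvPolynomial _ ℂ →ₐ[ℂ] ℂ) g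
      simpa [aeval_eq_eval] using this.symm
    have h2 : (fun x : (Fin r × Fin (I + 1)) ⊕ (Fin r × Fin (J + 1)) ⊕ (Fin r × Fin K) → ℂ =>
        ∏ l : Fin r, (x (Sum.inl (l, 0)) * x (Sum.inr (Sum.inl (l, 0))))) ∈ PF _ :=
      mem_PF.2 ⟨∏ l : Fin r, (X (Sum.inl (l, 0)) * X (Sum.inr (Sum.inl (l, 0)))), fun x => by simp⟩
    obtain ⟨z, hz1, hz2⟩ := PF_domain h1 h2 y 1 hy (by simp)
    apply hz1
    have hz3 : ∀ l : Fin r, z (Sum.inl (l, 0)) ≠ 0 ∧ z (Sum.inr (Sum.inl (l, 0))) ≠ 0 := by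
      intro l
      exact mul_ne_zero_iff.1 (Finset.prod_ne_zero_iff.1 hz2 l (Finset.mem_univ _))
    have := hgF (fun p => Sum.elim (fun i => z (Sum.inl (p.1, i.succ)) / z (Sum.inl (p.1, 0)))
      (Sum.elim (fun j => z (Sum.inr (Sum.inl (p.1, j.succ))) / z (Sum.inr (Sum.inl (p.1, 0))))
        (fun k => z (Sum.inl (p.1, 0)) * z (Sum.inr (Sum.inl (p.1, 0))) *
          z (Sum.inr (Sum.inr (p.1, k))))) p.2)
    rw [← this]
    congr 2
    funext n
    obtain ⟨i, j, k⟩ := n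
    simp only [univT, F, map_sum, map_mul, eval_X, Sum.elim_inr]
    refine Finset.sum_congr rfl fun l _ => ?_
    obtain ⟨h3, h4⟩ := hz3 l
    refine Fin.cases ?_ (fun i => ?_) i <;> refine Fin.cases ?_ (fun j => ?_) j <;>
      simp <;> field_simp
  apply hg
  apply MvPolynomial.funext
  intro w
  have hcl : IsClosed {T : Fin (I + 1) → Fin (J + 1) → Fin K → ℂ |
      eval (fun n : Fin (I + 1) × Fin (J + 1) × Fin K => T n.1 n.2.1 n.2.2) g = 0} :=
    isClosed_eq ((MvPolynomial.continuous_eval g).comp (by fun_prop)) continuous_const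
  have hsub : RankSet (I + 1) (J + 1) K r ⊆ {T : Fin (I + 1) → Fin (J + 1) → Fin K → ℂ |
      eval (fun n : Fin (I + 1) × Fin (J + 1) × Fin K => T n.1 n.2.1 n.2.2) g = 0} := by
    rintro T ⟨a, b, c, rfl⟩
    have := key (Sum.elim (fun p => a p.1 p.2) (Sum.elim (fun p => b p.1 p.2) (fun p => c p.1 p.2)))
    simpa [univT] using this
  have := hcl.closure_subset_iff.2 hsub (hd (fun i j k => w (i, j, k)))
  simpa using this

end Pool.Agent.Work.MP_f4b644_ag
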